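import Mathlib
set_option autoImplicit false
set_option linter.unusedSectionVars false
open Finset

noncomputable section

namespace Pool.Agent.Q285.WE

variable {V : Type*} [DecidableEq V] {G : SimpleGraph V}

/-- A finite set of vertices is connected inside itself. -/
def Conn (G : SimpleGraph V) (X : Finset V) : Prop :=
  ∀ u ∈ X, ∀ v ∈ X, Relation.ReflTransGen (fun a b => G.Adj a b ∧ a ∈ X ∧ b ∈ X) u v

lemma cut {X : Finset V} (h : Conn G X) (S : V → Prop) {x y : V} (hx : x ∈ X) (hy : y ∈ X)
    (Sx : S x) (Sy : ¬ S y) : ∃ a ∈ X, ∃ b ∈ X, G.Adj a b ∧ S a ∧ ¬ S b := by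
  by_contra hc
  push Not at hc
  apply Sy
  have key : ∀ z, Relation.ReflTransGen (fun a b => G.Adj a b ∧ a ∈ X ∧ b ∈ X) x z → S z := by
    intro z hz
    induction hz with
    | refl => exact Sx
    | tail _ hbc ih => exact hc _ hbc.2.1 _ hbc.2.2 hbc.1 ih
  exact key y (h x hx y hy)

lemma conn_singleton (v : V) : Conn G {v} := by
  intro a ha b hb
  rw [mem_singleton] at ha hb
  subst ha; subst hb
  exact Relation.ReflTransGen.refl

lemma conn_insert {X : Finset V} (h : Conn G X) {w v : V} (hw : w ∈ X) (hwv : G.Adj w v) :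
    Conn G (insert v X) := by
  have mono : ∀ a b, Relation.ReflTransGen (fun a b => G.Adj a b ∧ a ∈ X ∧ b ∈ X) a b →
      Relation.ReflTransGen (fun a b => G.Adj a b ∧ a ∈ insert v X ∧ b ∈ insert v X) a b := by
    intro a b hab
    induction hab with
    | refl => exact Relation.ReflTransGen.refl
    | tail _ hcd ih =>
      exact ih.tail ⟨hcd.1, mem_insert_of_mem hcd.2.1, mem_insert_of_mem hcd.2.2⟩
  have hv : v ∈ insert v X := mem_insert_self _ _
  have hw' : w ∈ insert v X := mem_insert_of_mem hw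
  have toV : ∀ a ∈ insert v X,
      Relation.ReflTransGen (fun a b => G.Adj a b ∧ a ∈ insert v X ∧ b ∈ insert v X) a v := by
    intro a ha
    rcases mem_insert.1 ha with rfl | ha
    · exact Relation.ReflTransGen.refl
    · exact (mono _ _ (h a ha w hw)).tail ⟨hwv, hw', hv⟩
  have fromV : ∀ a ∈ insert v X,
      Relation.ReflTransGen (fun a b => G.Adj a b ∧ a ∈ insert v X ∧ b ∈ insert v X) v a := by
    intro a ha
    rcases mem_insert.1 ha with rfl | ha
    · exact Relation.ReflTransGen.refl
    · exact Relation.ReflTransGen.head ⟨hwv.symm, hv, hw'⟩ (mono _ _ (h w hw a ha))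
  intro a ha b hb
  exact (toV a ha).trans (fromV b hb)

lemma grow {Z Y : Finset V} (hZ : Conn G Z) (hY : Conn G Y) (hne : Y.Nonempty) (hYZ : Y ⊆ Z)
    (Q : Finset V → Prop) (hQ : Q Y)
    (step : ∀ X v w, Conn G X → v ∉ X → w ∈ X → G.Adj w v → Q X → Q (insert v X)) : Q Z := by
  induction hn : (Z \ Y).card generalizing Y with
  | zero =>
    have : Z \ Y = ∅ := Finset.card_eq_zero.1 hn
    have h2 : Z ⊆ Y := Finset.sdiff_eq_empty_iff_subset.1 this
    rw [Finset.Subset.antisymm h2 hYZ]; exact hQ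
  | succ n ih =>
    have : (Z \ Y).Nonempty := by rw [← Finset.card_pos]; omega
    obtain ⟨z, hz⟩ := this
    rw [mem_sdiff] at hz
    obtain ⟨y, hy⟩ := hne
    obtain ⟨a, ha, b, hb, hab, haY, hbY⟩ := cut hZ (fun x => x ∈ Y) (hYZ hy) hz.1 hy hz.2
    refine ih (Y := insert b Y) (conn_insert hY haY hab) ⟨b, mem_insert_self _ _⟩ ?_
      (step Y b a hY hbY haY hab hQ) ?_
    · intro c hc
      rcases mem_insert.1 hc with rfl | hc
      · exact hb
      · exact hYZ hc
    · have : Z \ insert b Y = (Z \ Y).erase b := by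
        ext c; simp only [mem_sdiff, mem_insert, mem_erase]; tauto
      rw [this, Finset.card_erase_of_mem (mem_sdiff.2 ⟨hb, hbY⟩)]; omega

variable (hG : G.Connected)
include hG

lemma lip {a b : V} (h : G.Adj a b) (u : V) : G.dist u b ≤ G.dist u a + 1 := by
  have := hG.dist_triangle (u := u) (v := a) (w := b)
  rw [SimpleGraph.dist_eq_one_iff_adj.2 h] at this
  exact this

lemma lip' {a b : V} (h : G.Adj a b) (u : V) : G.dist u a ≤ G.dist u b + 1 := lip hG h.symm u

lemma level {X : Finset V} (h : Conn G X) {v u : V} (hv : v ∈ X) (hu : u ∈ X) {j : ℕ}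
    (hj : j ≤ G.dist v u) : ∃ w ∈ X, G.dist v w = j := by
  rcases Nat.eq_or_lt_of_le hj with hj | hj
  · exact ⟨u, hu, hj.symm⟩
  · obtain ⟨a, ha, b, hb, hab, h1, h2⟩ := cut h (fun x => G.dist v x ≤ j) hv hu
      (by simp) (by simpa using hj)
    refine ⟨a, ha, ?_⟩
    have := lip hG hab v
    simp only [not_le] at h2
    omega

lemma ball_card {X : Finset V} (h : Conn G X) {v : V} (hv : v ∈ X) {k : ℕ}
    (hne : (X.filter (fun u => k ≤ G.dist v u)).Nonempty) :
    k ≤ (X.filter (fun u => G.dist v u < k)).card := by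
  obtain ⟨u, hu⟩ := hne
  rw [mem_filter] at hu
  have hsub : Finset.range k ⊆ (X.filter (fun u => G.dist v u < k)).image (G.dist v) := by
    intro j hj
    rw [Finset.mem_range] at hj
    obtain ⟨w, hw, hwj⟩ := level hG h hv hu.1 (j := j) (by omega)
    exact mem_image.2 ⟨w, mem_filter.2 ⟨hw, by omega⟩, hwj⟩
  calc k = (Finset.range k).card := (Finset.card_range k).symm
    _ ≤ _ := Finset.card_le_card hsub
    _ ≤ _ := Finset.card_image_le

omit hG in
lemma filter_split (X : Finset V) (v : V) (k : ℕ) :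
    (X.filter (fun u => k ≤ G.dist v u)).card + (X.filter (fun u => G.dist v u < k)).card
      = X.card := by
  have := Finset.card_filter_add_card_filter_not (s := X) (p := fun u => k ≤ G.dist v u)
  simpa [not_le] using this

/-- number of ordered pairs in `X` at distance at least `k` -/
def A (G : SimpleGraph V) (k : ℕ) (X : Finset V) : ℕ :=
  ∑ u ∈ X, ∑ v ∈ X, if k ≤ G.dist u v then 1 else 0

/-- number of vertices of `X` having a vertex of `X` at distance at least `k` -/
def M (G : SimpleGraph V) (k : ℕ) (X : Finset V) : ℕ :=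
  (X.filter (fun u => ∃ v ∈ X, k ≤ G.dist u v)).card

/-- degree of `v` towards `X` in the distance-at-least-`k` graph -/
def dg (G : SimpleGraph V) (k : ℕ) (v : V) (X : Finset V) : ℕ :=
  (X.filter (fun u => k ≤ G.dist v u)).card

omit hG in
lemma A_insert {k : ℕ} (hk : 1 ≤ k) {X : Finset V} {v : V} (hv : v ∉ X) :
    A G k (insert v X) = A G k X + 2 * dg G k v X := by
  unfold A dg
  rw [Finset.sum_insert hv, Finset.sum_insert hv]
  have h1 : (if k ≤ G.dist v v then 1 else 0) = 0 := by
    rw [if_neg]; simp; omega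
  rw [h1]
  have h2 : ∑ u ∈ X, ∑ w ∈ insert v X, (if k ≤ G.dist u w then 1 else 0)
      = ∑ u ∈ X, ((if k ≤ G.dist v u then 1 else 0) + ∑ w ∈ X, (if k ≤ G.dist u w then 1 else 0)) := by
    refine Finset.sum_congr rfl fun u _ => ?_
    rw [Finset.sum_insert hv, SimpleGraph.dist_comm]
  rw [h2, Finset.sum_add_distrib]
  have h3 : ∑ u ∈ X, (if k ≤ G.dist v u then 1 else 0)
      = (X.filter (fun u => k ≤ G.dist v u)).card := by
    rw [Finset.card_filter]
  rw [h3]; ring

lemma dg_le {k : ℕ} (hk : 1 ≤ k) {X : Finset V} {v w : V} (h : Conn G X) (hv : v ∉ X)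
    (hw : w ∈ X) (hwv : G.Adj w v) : dg G k v X = 0 ∨ dg G k v X + k ≤ X.card + 1 := by
  rcases Nat.eq_zero_or_pos (dg G k v X) with h0 | h0
  · exact Or.inl h0
  · right
    have hc := conn_insert h hw hwv
    have hE : (insert v X).filter (fun u => k ≤ G.dist v u) = X.filter (fun u => k ≤ G.dist v u) := by
      rw [Finset.filter_insert, if_neg]; simp; omega
    have hb := ball_card hG hc (mem_insert_self v X) (k := k) (by
      rw [hE]; exact Finset.card_pos.1 h0)
    have hs := filter_split (G := G) (insert v X) v k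
    rw [hE, Finset.card_insert_of_notMem hv] at hs
    unfold dg at h0 ⊢
    omega

/-- growth of the count of far pairs, with a gain -/
lemma gain_mono {k c : ℕ} (hk : 1 ≤ k) {Z Y : Finset V} (hZ : Conn G Z) (hY : Conn G Y)
    (hne : Y.Nonempty) (hYZ : Y ⊆ Z) (hc : c = 0 ∨ k ≤ Y.card)
    (hA : A G k Y + 2 * c ≤ (Y.card - k + 1) * (Y.card - k)) :
    A G k Z + 2 * c ≤ (Z.card - k + 1) * (Z.card - k) := by
  have := grow hZ hY hne hYZ (fun X => (c = 0 ∨ k ≤ X.card) ∧
    A G k X + 2 * c ≤ (X.card - k + 1) * (X.card - k)) ⟨hc, hA⟩ (by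
    intro X v w hX hv hw hwv hQ
    obtain ⟨hQ1, hQ2⟩ := hQ
    have hcard : (insert v X).card = X.card + 1 := Finset.card_insert_of_notMem hv
    rw [hcard, A_insert hk hv]
    refine ⟨by omega, ?_⟩
    have hd := dg_le hG hk hX hv hw hwv
    by_cases hX2 : k ≤ X.card
    · obtain ⟨m, hm⟩ := Nat.exists_eq_add_of_le hX2
      have e1 : X.card - k = m := by omega
      have e2 : X.card + 1 - k = m + 1 := by omega
      rw [e1] at hQ2
      rw [e2]
      have hd2 : dg G k v X ≤ m + 1 := by omega
      nlinarith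
    · have hc0 : c = 0 := by omega
      have hd2 : dg G k v X = 0 := by omega
      have e1 : X.card - k = 0 := by omega
      rw [e1] at hQ2
      rw [hd2]
      have : A G k X + 2 * c = 0 := by omega
      rw [show A G k X + 2 * 0 + 2 * c = A G k X + 2 * c by ring, this]
      exact Nat.zero_le _)
  exact this.2

lemma A_le {k : ℕ} (hk : 1 ≤ k) {Z : Finset V} (hZ : Conn G Z) (hne : Z.Nonempty) :
    A G k Z ≤ (Z.card - k + 1) * (Z.card - k) := by
  obtain ⟨z, hz⟩ := hne
  have := gain_mono hG (k := k) (c := 0) hk hZ (conn_singleton (G := G) z)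
    (Finset.singleton_nonempty z) (Finset.singleton_subset_iff.2 hz) (Or.inl rfl) (by
      have : A G k {z} = 0 := by
        unfold A; simp; omega
      rw [this]; simp)
  simpa using this

/-- the gain step with an explicit set of close vertices -/
lemma gain_step {k c r m : ℕ} (hk : 1 ≤ k) {X : Finset V} {v : V} (hv : v ∉ X)
    (hm : X.card = k + m) (S : Finset V) (hS : S ⊆ insert v X) (hSd : ∀ u ∈ S, G.dist v u < k)
    (hSc : k + r ≤ S.card) (hA : A G k X + 2 * c ≤ (m + 1) * m) :
    A G k (insert v X) + 2 * (c + r) ≤ (m + 1 + 1) * (m + 1) := by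
  rw [A_insert hk hv]
  have hE : (insert v X).filter (fun u => k ≤ G.dist v u) = X.filter (fun u => k ≤ G.dist v u) := by
    rw [Finset.filter_insert, if_neg]; simp; omega
  have hs := filter_split (G := G) (insert v X) v k
  rw [hE, Finset.card_insert_of_notMem hv] at hs
  have h2 : S.card ≤ ((insert v X).filter (fun u => G.dist v u < k)).card := by
    apply Finset.card_le_card
    intro u hu
    exact mem_filter.2 ⟨hS hu, hSd u hu⟩
  have h3 : dg G k v X + r ≤ m + 1 := by unfold dg; omega
  nlinarith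

end Pool.Agent.Q285.WE
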