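import Pool.Agent.Q285.WE.Tree
set_option autoImplicit false
set_option linter.unusedSectionVars false
open Finset

noncomputable section

namespace Pool.Agent.Q285.WE

/-! ### arithmetic -/

def Es (n : ℕ) : ℤ := ∑ m ∈ Finset.range n, min (n : ℤ) (2 * (m : ℤ))

lemma Es_step (n : ℕ) : Es (n + 2) = Es n + (3 * n + 2) := by
  unfold Es
  rw [Finset.sum_range_succ']
  have h1 : ∀ m ∈ Finset.range (n + 1), min (((n + 2 : ℕ)) : ℤ) (2 * ((m + 1 : ℕ) : ℤ))
      = min (n : ℤ) (2 * (m : ℤ)) + 2 := by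
    intro m _
    push_cast
    rw [show (2 : ℤ) * ((m : ℤ) + 1) = 2 * m + 2 by ring, min_add_add_right]
  rw [Finset.sum_congr rfl h1, Finset.sum_add_distrib, Finset.sum_range_succ, Finset.sum_const,
    Finset.card_range]
  have h2 : min (n : ℤ) (2 * (n : ℤ)) = n := by rw [min_eq_left]; omega
  have h3 : min (((n + 2 : ℕ)) : ℤ) (2 * ((0 : ℕ) : ℤ)) = 0 := by
    rw [min_eq_right]; simp; positivity
  rw [h2, h3]
  simp
  ring

lemma Es_eq (n : ℕ) : 4 * Es n = 3 * (n : ℤ) ^ 2 - 2 * n - (n % 2 : ℕ) := by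
  induction n using Nat.twoStepInduction with
  | zero => simp [Es]
  | one => simp [Es]
  | more n ih _ =>
    rw [Es_step, mul_add, ih, Nat.add_mod_right]
    push_cast
    ring

def Ss (n : ℕ) : ℤ := ∑ i ∈ Finset.range (n - 1), q ((i : ℤ) + 1) n

lemma sum_prod (n : ℕ) : 3 * ∑ m ∈ Finset.range n, ((m : ℤ) + 1) * m = (n : ℤ) ^ 3 - n := by
  induction n with
  | zero => simp
  | succ n ih =>
    rw [Finset.sum_range_succ, mul_add, ih]
    push_cast
    ring

lemma Ss_eq (n : ℕ) (hn : 1 ≤ n) : Ss n = (∑ m ∈ Finset.range n, ((m : ℤ) + 1) * m) - 2 * Es n := by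
  obtain ⟨N, rfl⟩ : ∃ N, n = N + 1 := ⟨n - 1, by omega⟩
  unfold Ss Es
  rw [Finset.mul_sum, ← Finset.sum_sub_distrib, Finset.sum_range_succ']
  simp only [Nat.add_sub_cancel]
  rw [← Finset.sum_range_reflect]
  have h0 : (((0 : ℕ) : ℤ) + 1) * ((0 : ℕ) : ℤ) - 2 * min (((N + 1 : ℕ)) : ℤ) (2 * ((0 : ℕ) : ℤ))
      = 0 := by
    have : min (((N + 1 : ℕ)) : ℤ) (2 * ((0 : ℕ) : ℤ)) = 0 := by
      rw [min_eq_right]; simp; positivity
    rw [this]; simp
  rw [h0, add_zero]
  refine Finset.sum_congr rfl fun m hm => ?_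
  rw [Finset.mem_range] at hm
  unfold q
  have h1 : ((N - 1 - m : ℕ) : ℤ) = (N : ℤ) - 1 - m := by omega
  rw [h1]
  push_cast
  have h2 : (N : ℤ) + 1 - ((N : ℤ) - 1 - m + 1) = m + 1 := by ring
  rw [h2]

lemma Ss_val (n : ℕ) (hn : 1 ≤ n) :
    6 * Ss n = 2 * (n : ℤ) ^ 3 - 9 * n ^ 2 + 4 * n + 3 * (n % 2 : ℕ) := by
  rw [Ss_eq n hn]
  have h1 := sum_prod n
  have h2 := Es_eq n
  linarith

/-- the floor in the problem, doubled -/
lemma floor_val (n : ℕ) (hn : 1 ≤ n) :
    2 * ⌊(n : ℚ) ^ 3 / 6 - 3 / 4 * (n : ℚ) ^ 2 + (n : ℚ) / 3 + 1 / 4⌋ = Ss n := by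
  have h1 := Ss_val n hn
  have hev : ∃ s : ℤ, Ss n = 2 * s := by
    have h3 : ∀ m : ℤ, ∃ t : ℤ, (m + 1) * m = 2 * t := by
      intro m
      obtain ⟨t, ht⟩ := (Int.even_mul_succ_self m)
      exact ⟨t, by rw [mul_comm]; rw [ht]; ring⟩
    choose t ht using h3
    refine ⟨∑ m ∈ Finset.range n, t m - Es n, ?_⟩
    rw [Ss_eq n hn, mul_sub, Finset.mul_sum]
    congr 1
    exact Finset.sum_congr rfl fun m _ => ht m
  obtain ⟨s, hs⟩ := hev
  rw [hs]
  congr 1
  rw [Int.floor_eq_iff]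
  rw [hs] at h1
  have hr : n % 2 ≤ 1 := by omega
  generalize n % 2 = r at h1 hr
  have h2 : (12 : ℚ) * s = 2 * (n : ℚ) ^ 3 - 9 * (n : ℚ) ^ 2 + 4 * n + 3 * (r : ℚ) := by
    have := congrArg (fun z : ℤ => (z : ℚ)) h1
    push_cast at this
    linarith
  have h3 : (r : ℚ) ≤ 1 := by exact_mod_cast hr
  have h4 : (0 : ℚ) ≤ (r : ℚ) := by positivity
  constructor <;> linarith

lemma q_nonneg (k n : ℤ) (h : k + 3 ≤ n) : 0 ≤ q k n := by
  unfold q
  have h1 : min n (2 * (n - k)) ≤ 2 * (n - k) := min_le_right _ _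
  nlinarith

lemma q_low (k n : ℤ) (h : 2 * k ≤ n) : q k n = (n - k + 1) * (n - k) - 2 * n := by
  unfold q
  rw [min_eq_left (by omega)]

variable {V : Type*} [DecidableEq V] {G : SimpleGraph V}

/-! ### the sums -/

lemma sum_ind (d N : ℕ) (h : d ≤ N) :
    ∑ i ∈ Finset.range N, (if i + 1 ≤ d then 1 else 0) = d := by
  rw [← Finset.card_filter]
  have : (Finset.range N).filter (fun i => i + 1 ≤ d) = Finset.range d := by
    ext i; simp only [mem_filter, mem_range]; omega
  rw [this, Finset.card_range]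

/-- eccentricity of a vertex -/
def ec [Fintype V] (G : SimpleGraph V) (u : V) : ℕ := univ.sup (fun v => G.dist u v)

lemma sum_dist [Fintype V] (N : ℕ) (h : ∀ u v, G.dist u v ≤ N) :
    ∑ u : V, ∑ v : V, G.dist u v = ∑ i ∈ Finset.range N, A G (i + 1) univ := by
  unfold A
  rw [Finset.sum_comm]
  conv_rhs => rw [Finset.sum_comm]
  rw [Finset.sum_comm]
  refine Finset.sum_congr rfl fun u _ => ?_
  rw [Finset.sum_comm]
  refine Finset.sum_congr rfl fun v _ => ?_
  rw [sum_ind _ _ (h u v)]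

lemma sum_ec [Fintype V] (N : ℕ) (h : ∀ u v, G.dist u v ≤ N) :
    ∑ u : V, ec G u = ∑ i ∈ Finset.range N, M G (i + 1) univ := by
  unfold M
  simp_rw [Finset.card_filter]
  rw [Finset.sum_comm]
  refine Finset.sum_congr rfl fun u _ => ?_
  have h1 : ec G u ≤ N := Finset.sup_le fun v _ => h u v
  rw [← sum_ind _ _ h1]
  refine Finset.sum_congr rfl fun i _ => ?_
  have : (i + 1 ≤ ec G u) ↔ ∃ v ∈ (univ : Finset V), i + 1 ≤ G.dist u v := by
    unfold ec
    rw [Finset.le_sup_iff (by simp)]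
  by_cases h2 : i + 1 ≤ ec G u
  · rw [if_pos h2, if_pos (this.1 h2)]
  · rw [if_neg h2, if_neg (fun h3 => h2 (this.2 h3))]

lemma exists_far [Fintype V] {u : V} {k : ℕ} (hk : 1 ≤ k) (h : k ≤ ec G u) :
    ∃ v, k ≤ G.dist u v := by
  unfold ec at h
  rw [Finset.le_sup_iff (by simp; omega)] at h
  obtain ⟨v, _, hv⟩ := h
  exact ⟨v, hv⟩

lemma M_full [Fintype V] {k : ℕ} (h4 : ∀ u, ∃ v, 4 ≤ G.dist u v) (hk : k ≤ 4) :
    M G k univ = Fintype.card V := by
  unfold M
  rw [Finset.filter_true_of_mem, Finset.card_univ]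
  intro u _
  obtain ⟨v, hv⟩ := h4 u
  exact ⟨v, mem_univ _, hk.trans hv⟩

lemma M_zero [Fintype V] {k : ℕ} (hA : A G k univ = 0) : M G k univ = 0 := by
  unfold M
  rw [Finset.card_eq_zero, Finset.filter_eq_empty_iff]
  rintro u _ ⟨v, _, hv⟩
  unfold A at hA
  rw [Finset.sum_eq_zero_iff] at hA
  have h1 := hA u (mem_univ _)
  rw [Finset.sum_eq_zero_iff] at h1
  have h2 := h1 v (mem_univ _)
  rw [if_pos hv] at h2
  exact one_ne_zero h2

variable (hG : G.Connected)
include hG

lemma gains [Fintype V] (h4 : ∀ u, ∃ v, 4 ≤ G.dist u v) {x y : V}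
    (hmax : ∀ u v, G.dist u v ≤ G.dist x y) (hD : G.dist x y + 2 ≤ Fintype.card V) :
    ∃ g2 g3 g4 : ℕ,
      A G 2 univ + 2 * g2 ≤ (Fintype.card V - 2 + 1) * (Fintype.card V - 2) ∧
      A G 3 univ + 2 * g3 ≤ (Fintype.card V - 3 + 1) * (Fintype.card V - 3) ∧
      A G 4 univ + 2 * g4 ≤ (Fintype.card V - 4 + 1) * (Fintype.card V - 4) ∧
      2 ≤ g2 + g3 + g4 ∧ (G.dist x y + 3 ≤ Fintype.card V → 3 ≤ g2 + g3 + g4) := by
  classical
  have hn := eight_le hG h4
  have hU := conn_univ hG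
  have := hG.nonempty
  have hA2 := A_le hG (k := 2) (by norm_num) hU univ_nonempty
  have hA3 := A_le hG (k := 3) (by norm_num) hU univ_nonempty
  have hA4 := A_le hG (k := 4) (by norm_num) hU univ_nonempty
  rw [Finset.card_univ] at hA2 hA3 hA4
  by_cases hT : G.IsTree
  · have hD4 : 4 ≤ G.dist x y := by
      obtain ⟨v, hv⟩ := h4 x
      exact hv.trans (hmax x v)
    obtain ⟨h3, g, hg1, hg2, h4'⟩ := tree_gain hG hT.isAcyclic hmax hD4 hD
    exact ⟨0, 1, g, by omega, h3, h4', by omega, fun h => by have := hg2 h; omega⟩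
  · have hE : Fintype.card V ≤ G.edgeFinset.card := by
      have h1 := hG.card_vert_le_card_edgeSet_add_one
      have h2 : ¬ (Nat.card G.edgeSet + 1 = Nat.card V) := by
        intro h
        exact hT (SimpleGraph.isTree_iff_connected_and_card.2 ⟨hG, h⟩)
      rw [Nat.card_eq_fintype_card, Nat.card_eq_fintype_card, ← SimpleGraph.edgeFinset_card]
        at h1 h2
      omega
    have hA2e := A_two hG
    have hA2' : A G 2 univ + 2 * 1 ≤ (Fintype.card V - 2 + 1) * (Fintype.card V - 2) := by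
      obtain ⟨m, hm⟩ : ∃ m, Fintype.card V = m + 2 := ⟨Fintype.card V - 2, by omega⟩
      rw [hm] at hA2e hE ⊢
      rw [Nat.add_sub_cancel]
      nlinarith
    by_cases hdeg : ∃ c, 3 ≤ G.degree c
    · obtain ⟨c, hc⟩ := hdeg
      obtain ⟨v4, hv4⟩ := h4 c
      obtain ⟨a, _, w, _, haw, h1, h2⟩ := cut hU (fun z => G.dist c z ≤ 1) (mem_univ c)
        (mem_univ v4) (by simp) (by simp; omega)
      simp only [not_le] at h2
      have hl := lip hG haw c
      have hca : G.Adj c a := SimpleGraph.dist_eq_one_iff_adj.1 (by omega)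
      have hmem : a ∈ G.neighborFinset c := (SimpleGraph.mem_neighborFinset _ _ _).2 hca
      have hcard : 1 < ((G.neighborFinset c).erase a).card := by
        rw [Finset.card_erase_of_mem hmem, SimpleGraph.card_neighborFinset_eq_degree]; omega
      obtain ⟨a2, ha2, a3, ha3, h23⟩ := Finset.one_lt_card.1 hcard
      rw [mem_erase, SimpleGraph.mem_neighborFinset] at ha2 ha3
      obtain ⟨s3, s4⟩ := star_gain hG h4 c a a2 a3 hca ha2.2 ha3.2 ha2.1.symm ha3.1.symm h23 w
        haw (by omega)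
      exact ⟨1, 1, 1, hA2', s3, s4, by norm_num, fun _ => by norm_num⟩
    · push Not at hdeg
      have hsum := SimpleGraph.sum_degrees_eq_twice_card_edges G
      have hdeg2 : ∀ v, G.degree v = 2 := by
        by_contra hne
        push Not at hne
        obtain ⟨v, hv⟩ := hne
        have h1 : ∑ u : V, G.degree u < ∑ _u : V, 2 :=
          Finset.sum_lt_sum (fun u _ => by have := hdeg u; omega)
            ⟨v, mem_univ v, by have := hdeg v; omega⟩
        rw [Finset.sum_const, Finset.card_univ, smul_eq_mul] at h1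
        omega
      have hball := reg_ball hG h4 hdeg2
      have hA3' : A G 3 univ + 5 * Fintype.card V ≤ Fintype.card V * Fintype.card V := by
        unfold A
        have h1 : 5 * Fintype.card V = ∑ _u : V, 5 := by simp [mul_comm]
        rw [h1, ← Finset.sum_add_distrib]
        calc ∑ u : V, ((∑ v : V, if 3 ≤ G.dist u v then 1 else 0) + 5)
            ≤ ∑ u : V, Fintype.card V := by
              refine Finset.sum_le_sum fun u _ => ?_
              rw [← Finset.card_filter]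
              have h2 := filter_split (G := G) univ u 3
              have h3 := hball u
              rw [Finset.card_univ] at h2
              omega
          _ = Fintype.card V * Fintype.card V := by simp
      refine ⟨1, 3, 0, hA2', ?_, by omega, by norm_num, fun _ => by norm_num⟩
      obtain ⟨m, hm⟩ : ∃ m, Fintype.card V = m + 3 := ⟨Fintype.card V - 3, by omega⟩
      rw [hm] at hA3' ⊢
      rw [Nat.add_sub_cancel]
      nlinarith

/-- the main inequality -/
lemma main_ineq [Fintype V] (h4 : ∀ u, ∃ v, 4 ≤ G.dist u v) {x y : V}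
    (hmax : ∀ u v, G.dist u v ≤ G.dist x y) :
    ((∑ u : V, ∑ v : V, G.dist u v : ℕ) : ℤ) - 2 * ((∑ u : V, ec G u : ℕ) : ℤ)
      ≤ Ss (Fintype.card V) ∧
    (G.dist x y + 2 ≤ Fintype.card V →
      ((∑ u : V, ∑ v : V, G.dist u v : ℕ) : ℤ) - 2 * ((∑ u : V, ec G u : ℕ) : ℤ)
      < Ss (Fintype.card V)) := by
  have hn := eight_le hG h4
  have hU := conn_univ hG
  have := hG.nonempty
  have hDn : G.dist x y + 1 ≤ Fintype.card V := by
    obtain ⟨p, hp⟩ := hG.exists_walk_length_eq_dist x y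
    rw [← Pset_card hG p hp, ← Finset.card_univ]
    exact Finset.card_le_card (subset_univ _)
  set n := Fintype.card V with hndef
  have hle : ∀ u v, G.dist u v ≤ n - 1 := fun u v => by have := hmax u v; omega
  rw [sum_dist (n - 1) hle, sum_ec (n - 1) hle]
  unfold Ss
  obtain ⟨m, hm⟩ : ∃ m, n = m + 8 := ⟨n - 8, by omega⟩
  have hT : ∀ k, 3 ≤ k → A G k univ = 0 ∨ (A G k univ : ℤ) - 2 * M G k univ ≤ q k n := by
    intro k hk
    have := T_le hG hk hU univ_nonempty
    rwa [Finset.card_univ] at this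
  have hApos : ∀ k, k ≤ G.dist x y → A G k univ ≠ 0 := by
    intro k hk h0
    unfold A at h0
    rw [Finset.sum_eq_zero_iff] at h0
    have h1 := h0 x (mem_univ _)
    rw [Finset.sum_eq_zero_iff] at h1
    have h2 := h1 y (mem_univ _)
    rw [if_pos hk] at h2
    exact one_ne_zero h2
  -- middle terms
  have hmid : ∑ i ∈ Finset.range (m + 1), ((A G (i + 5) univ : ℤ) - 2 * M G (i + 5) univ)
      ≤ ∑ i ∈ Finset.range (m + 1), q ((i : ℤ) + 5) n := by
    refine Finset.sum_le_sum fun i hi => ?_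
    rw [Finset.mem_range] at hi
    rcases hT (i + 5) (by omega) with h | h
    · rw [h, M_zero h]
      have := q_nonneg ((i : ℤ) + 5) n (by omega)
      simpa using this
    · push_cast at h
      exact h
  -- the two last terms
  have hq1 : q ((n : ℤ) - 1) n = -2 := by
    unfold q; rw [min_eq_right (by omega)]; ring
  have hq2 : q ((n : ℤ) - 2) n = -2 := by
    unfold q; rw [min_eq_right (by omega)]; ring
  have hlast1 : ((A G (n - 1) univ : ℤ) - 2 * M G (n - 1) univ)
      ≤ (if G.dist x y + 2 ≤ n then 0 else -2) := by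
    by_cases h : G.dist x y + 2 ≤ n
    · rw [if_pos h]
      rcases hT (n - 1) (by omega) with h1 | h1
      · rw [h1, M_zero h1]; simp
      · rw [show ((n - 1 : ℕ) : ℤ) = (n : ℤ) - 1 by omega, hq1] at h1; omega
    · rw [if_neg h]
      rcases hT (n - 1) (by omega) with h1 | h1
      · exact absurd h1 (hApos _ (by omega))
      · rw [show ((n - 1 : ℕ) : ℤ) = (n : ℤ) - 1 by omega, hq1] at h1; omega
  have hlast2 : ((A G (n - 2) univ : ℤ) - 2 * M G (n - 2) univ)
      ≤ (if G.dist x y + 3 ≤ n then 0 else -2) := by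
    by_cases h : G.dist x y + 3 ≤ n
    · rw [if_pos h]
      rcases hT (n - 2) (by omega) with h1 | h1
      · rw [h1, M_zero h1]; simp
      · rw [show ((n - 2 : ℕ) : ℤ) = (n : ℤ) - 2 by omega, hq2] at h1; omega
    · rw [if_neg h]
      rcases hT (n - 2) (by omega) with h1 | h1
      · exact absurd h1 (hApos _ (by omega))
      · rw [show ((n - 2 : ℕ) : ℤ) = (n : ℤ) - 2 by omega, hq2] at h1; omega
  -- splitting the sums
  have hsplitL : ((∑ i ∈ Finset.range (n - 1), A G (i + 1) univ : ℕ) : ℤ)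
      - 2 * ((∑ i ∈ Finset.range (n - 1), M G (i + 1) univ : ℕ) : ℤ)
      = ∑ i ∈ Finset.range (m + 1), ((A G (i + 5) univ : ℤ) - 2 * M G (i + 5) univ)
        + ((A G 4 univ : ℤ) - 2 * M G 4 univ) + ((A G 3 univ : ℤ) - 2 * M G 3 univ)
        + ((A G 2 univ : ℤ) - 2 * M G 2 univ) + ((A G 1 univ : ℤ) - 2 * M G 1 univ)
        + ((A G (n - 2) univ : ℤ) - 2 * M G (n - 2) univ)
        + ((A G (n - 1) univ : ℤ) - 2 * M G (n - 1) univ) := by
    push_cast
    rw [Finset.mul_sum, ← Finset.sum_sub_distrib]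
    rw [show n - 1 = (m + 1) + 1 + 1 + 1 + 1 + 1 + 1 by omega,
      show n - 2 = m + 6 by omega]
    rw [Finset.sum_range_succ, Finset.sum_range_succ, Finset.sum_range_succ',
      Finset.sum_range_succ', Finset.sum_range_succ', Finset.sum_range_succ']
  have hsplitR : ∑ i ∈ Finset.range (n - 1), q ((i : ℤ) + 1) n
      = ∑ i ∈ Finset.range (m + 1), q ((i : ℤ) + 5) n
        + q 4 n + q 3 n + q 2 n + q 1 n + q ((n : ℤ) - 2) n + q ((n : ℤ) - 1) n := by
    have e1 : (n : ℤ) - 2 = m + 6 := by omega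
    have e2 : (n : ℤ) - 1 = m + 7 := by omega
    rw [e1, e2]
    rw [show n - 1 = (m + 1) + 1 + 1 + 1 + 1 + 1 + 1 by omega]
    rw [Finset.sum_range_succ, Finset.sum_range_succ, Finset.sum_range_succ',
      Finset.sum_range_succ', Finset.sum_range_succ', Finset.sum_range_succ']
    push_cast
    simp only [add_assoc]
    norm_num
  rw [hsplitL, hsplitR, hq1, hq2]
  have hM1 := M_full (k := 1) h4 (by norm_num)
  have hM2 := M_full (k := 2) h4 (by norm_num)
  have hM3 := M_full (k := 3) h4 (by norm_num)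
  have hM4 := M_full (k := 4) h4 (by norm_num)
  rw [hM1, hM2, hM3, hM4, ← hndef]
  rw [q_low 4 n (by omega), q_low 3 n (by omega), q_low 2 n (by omega), q_low 1 n (by omega)]
  have hA1 := A_le hG (k := 1) (by norm_num) hU univ_nonempty
  have hA2 := A_le hG (k := 2) (by norm_num) hU univ_nonempty
  have hA3 := A_le hG (k := 3) (by norm_num) hU univ_nonempty
  have hA4 := A_le hG (k := 4) (by norm_num) hU univ_nonempty
  rw [Finset.card_univ, ← hndef] at hA1 hA2 hA3 hA4
  have cast_nat : ∀ (k a c : ℕ), k ≤ n → a + 2 * c ≤ (n - k + 1) * (n - k) →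
      (a : ℤ) + 2 * c ≤ ((n : ℤ) - k + 1) * (n - k) := by
    intro k a c hk h
    have h1 : ((a + 2 * c : ℕ) : ℤ) ≤ (((n - k + 1) * (n - k) : ℕ) : ℤ) := by exact_mod_cast h
    push_cast [Nat.cast_sub hk] at h1
    exact h1
  have hA1' := cast_nat 1 _ 0 (by omega) (by simpa using hA1)
  push_cast at hA1'
  by_cases hD2 : G.dist x y + 2 ≤ n
  · obtain ⟨g2, g3, g4, e2, e3, e4, e5, e6⟩ := gains hG h4 hmax hD2
    rw [← hndef] at e2 e3 e4 e6
    have e2' := cast_nat 2 _ _ (by omega) e2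
    have e3' := cast_nat 3 _ _ (by omega) e3
    have e4' := cast_nat 4 _ _ (by omega) e4
    push_cast at e2' e3' e4'
    rw [if_pos hD2] at hlast1
    by_cases hD3 : G.dist x y + 3 ≤ n
    · rw [if_pos hD3] at hlast2
      have := e6 hD3
      constructor
      · linarith
      · intro _
        have h5 : (3 : ℤ) ≤ g2 + g3 + g4 := by exact_mod_cast this
        linarith
    · rw [if_neg hD3] at hlast2
      have h5 : (2 : ℤ) ≤ g2 + g3 + g4 := by exact_mod_cast e5
      constructor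
      · linarith
      · intro _; linarith
  · have e2' := cast_nat 2 _ 0 (by omega) (by simpa using hA2)
    have e3' := cast_nat 3 _ 0 (by omega) (by simpa using hA3)
    have e4' := cast_nat 4 _ 0 (by omega) (by simpa using hA4)
    push_cast at e2' e3' e4'
    rw [if_neg hD2] at hlast1
    rw [if_neg (by omega)] at hlast2
    constructor
    · linarith
    · intro h; exact absurd h hD2

end Pool.Agent.Q285.WE
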