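import Pool.Agent.Q285.WE.Level
set_option autoImplicit false
set_option linter.unusedSectionVars false
open Finset

noncomputable section

namespace Pool.Agent.Q285.WE

variable {V : Type*} [DecidableEq V] {G : SimpleGraph V} (hG : G.Connected)
include hG

lemma conn_univ [Fintype V] : Conn G (univ : Finset V) := by
  intro u _ v _
  have h := (SimpleGraph.reachable_iff_reflTransGen u v).1 (hG u v)
  induction h with
  | refl => exact Relation.ReflTransGen.refl
  | tail _ hcd ih => exact (ih (mem_univ _)).tail ⟨hcd, mem_univ _, mem_univ _⟩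

/-- first step of a geodesic -/
lemma first_step {a b : V} {i : ℕ} (h : G.dist a b = i + 1) :
    ∃ c, G.Adj a c ∧ G.dist c b = i := by
  obtain ⟨p, hp⟩ := hG.exists_walk_length_eq_dist a b
  rw [h] at hp
  cases p with
  | nil => simp at hp
  | cons hadj p' =>
    rename_i c
    refine ⟨c, hadj, ?_⟩
    rw [SimpleGraph.Walk.length_cons] at hp
    have h1 := SimpleGraph.dist_le p'
    have h2 := hG.dist_triangle (u := a) (v := c) (w := b)
    rw [SimpleGraph.dist_eq_one_iff_adj.2 hadj] at h2
    omega

lemma eight_le [Fintype V] (h4 : ∀ u, ∃ v, 4 ≤ G.dist u v) : 8 ≤ Fintype.card V := by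
  have := hG.nonempty
  set ec : V → ℕ := fun u => univ.sup (fun v => G.dist u v) with hec
  have hle : ∀ u v, G.dist u v ≤ ec u := fun u v => by
    exact Finset.le_sup (f := fun v => G.dist u v) (mem_univ v)
  obtain ⟨c, hc⟩ := Finite.exists_min ec
  obtain ⟨v4, hv4⟩ := h4 c
  have hr4 : 4 ≤ ec c := hv4.trans (hle c v4)
  obtain ⟨yr, _, hyr⟩ := Finset.exists_mem_eq_sup univ univ_nonempty (fun v => G.dist c v)
  have hyr' : G.dist c yr = ec c := hyr.symm
  obtain ⟨s, hs⟩ : ∃ s, ec c = s + 1 := ⟨ec c - 1, by omega⟩
  have hU := conn_univ hG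
  -- each layer is nonempty
  have hlay : ∀ i ≤ ec c, ∃ w, G.dist c w = i := by
    intro i hi
    obtain ⟨w, _, hw⟩ := level hG hU (mem_univ c) (mem_univ yr) (j := i) (by omega)
    exact ⟨w, hw⟩
  by_contra hlt
  push Not at hlt
  -- some inner layer is a singleton
  have hsing : ∃ i, i < s ∧ (univ.filter (fun w => G.dist c w = i + 1)).card < 2 := by
    by_contra hno
    push Not at hno
    have hsum := Finset.card_eq_sum_card_fiberwise (s := (univ : Finset V))
      (t := Finset.range (s + 2)) (f := fun w => G.dist c w) (by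
        intro w _
        have := hle c w
        simp only [coe_range, Set.mem_Iio]; omega)
    rw [Finset.card_univ, Finset.sum_range_succ, Finset.sum_range_succ'] at hsum
    have h0 : 1 ≤ (univ.filter (fun w => G.dist c w = 0)).card :=
      Finset.card_pos.2 ⟨c, by simp⟩
    have hlast : 1 ≤ (univ.filter (fun w => G.dist c w = s + 1)).card :=
      Finset.card_pos.2 ⟨yr, by simp; omega⟩
    have hmid : ∑ i ∈ Finset.range s, 2 ≤
        ∑ i ∈ Finset.range s, (univ.filter (fun w => G.dist c w = i + 1)).card :=
      Finset.sum_le_sum fun i hi => hno i (mem_range.1 hi)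
    rw [Finset.sum_const, Finset.card_range, smul_eq_mul] at hmid
    omega
  obtain ⟨i, his, hi1⟩ := hsing
  obtain ⟨x, hx⟩ := hlay (i + 1) (by omega)
  have hux : ∀ y, G.dist c y = i + 1 → y = x := by
    intro y hy
    have : (univ.filter (fun w => G.dist c w = i + 1)).card ≤ 1 := by omega
    exact Finset.card_le_one.1 this y (by simp [hy]) x (by simp [hx])
  obtain ⟨c', hcc', hc'x⟩ := first_step hG hx
  have hbeyond : ∀ j y, G.dist c y = i + 1 + j → G.dist x y ≤ j := by
    intro j
    induction j with
    | zero => intro y hy; rw [hux y hy]; simp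
    | succ j ih =>
      intro y hy
      have hy' : G.dist y c = (i + 1 + j) + 1 := by rw [SimpleGraph.dist_comm]; omega
      obtain ⟨z, hyz, hzc⟩ := first_step hG hy'
      have h1 := ih z (by rw [SimpleGraph.dist_comm]; exact hzc)
      have h2 := lip hG hyz.symm x
      omega
  have hec' : ec c' ≤ s := by
    rw [hec]
    refine Finset.sup_le fun y _ => ?_
    by_cases hy : G.dist c y ≤ i
    · have h1 := hG.dist_triangle (u := c') (v := c) (w := y)
      have h2 : G.dist c' c = 1 := SimpleGraph.dist_eq_one_iff_adj.2 hcc'.symm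
      omega
    · have h1 := hbeyond (G.dist c y - (i + 1)) y (by omega)
      have h2 := hG.dist_triangle (u := c') (v := x) (w := y)
      have h3 := hle c y
      omega
  have := hc c'
  omega

lemma A_two [Fintype V] [DecidableRel G.Adj] :
    A G 2 univ + 2 * G.edgeFinset.card + Fintype.card V = Fintype.card V * Fintype.card V := by
  have h1 : 2 * G.edgeFinset.card = ∑ u : V, ∑ v : V, if G.Adj u v then 1 else 0 := by
    rw [← SimpleGraph.sum_degrees_eq_twice_card_edges]
    refine Finset.sum_congr rfl fun u _ => ?_
    rw [← SimpleGraph.card_neighborFinset_eq_degree, SimpleGraph.neighborFinset_eq_filter,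
      Finset.card_filter]
  have h2 : Fintype.card V = ∑ u : V, ∑ v : V, if u = v then 1 else 0 := by
    simp
  have h3 : Fintype.card V * Fintype.card V = ∑ u : V, ∑ v : V, 1 := by simp
  rw [h3]
  conv_lhs => rw [h1]
  have h4 : (∑ u : V, ∑ v : V, if u = v then 1 else 0) = Fintype.card V := h2.symm
  rw [← h4]
  unfold A
  rw [← Finset.sum_add_distrib, ← Finset.sum_add_distrib]
  refine Finset.sum_congr rfl fun u _ => ?_
  rw [← Finset.sum_add_distrib, ← Finset.sum_add_distrib]
  refine Finset.sum_congr rfl fun v _ => ?_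
  by_cases huv : u = v
  · subst huv; simp
  · by_cases hadj : G.Adj u v
    · have : G.dist u v = 1 := SimpleGraph.dist_eq_one_iff_adj.2 hadj
      simp [huv, hadj, this]
    · have h5 : 0 < G.dist u v := hG.pos_dist_of_ne huv
      have h6 : G.dist u v ≠ 1 := fun h => hadj (SimpleGraph.dist_eq_one_iff_adj.1 h)
      simp [huv, hadj]; omega

omit hG in
lemma A_zero {k : ℕ} {X : Finset V} (h : ∀ u ∈ X, ∀ v ∈ X, G.dist u v < k) : A G k X = 0 := by
  unfold A
  refine Finset.sum_eq_zero fun u hu => Finset.sum_eq_zero fun v hv => ?_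
  rw [if_neg]; have := h u hu v hv; omega

/-- a vertex of degree at least three yields gains at levels three and four -/
lemma star_gain [Fintype V] (h4 : ∀ u, ∃ v, 4 ≤ G.dist u v) (c a a2 a3 : V) (ha : G.Adj c a)
    (ha2 : G.Adj c a2) (ha3 : G.Adj c a3) (h12 : a ≠ a2) (h13 : a ≠ a3) (h23 : a2 ≠ a3)
    (w : V) (haw : G.Adj a w) (hcw : G.dist c w = 2) :
    A G 3 univ + 2 * 1 ≤ (Fintype.card V - 3 + 1) * (Fintype.card V - 3) ∧
    A G 4 univ + 2 * 1 ≤ (Fintype.card V - 4 + 1) * (Fintype.card V - 4) := by
  have hU := conn_univ hG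
  have hn := eight_le hG h4
  have hca : c ≠ a := ha.ne
  have hca2 : c ≠ a2 := ha2.ne
  have hca3 : c ≠ a3 := ha3.ne
  have d1 : G.dist c a = 1 := SimpleGraph.dist_eq_one_iff_adj.2 ha
  have d2 : G.dist c a2 = 1 := SimpleGraph.dist_eq_one_iff_adj.2 ha2
  have d3 : G.dist c a3 = 1 := SimpleGraph.dist_eq_one_iff_adj.2 ha3
  have hwc : w ≠ c := by rintro rfl; simp at hcw
  have hwa : w ≠ a := haw.ne'
  have hwa2 : w ≠ a2 := by rintro rfl; omega
  have hwa3 : w ≠ a3 := by rintro rfl; omega
  have c0 : Conn G {c} := conn_singleton c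
  have c1 : Conn G (insert a {c}) := conn_insert c0 (mem_singleton_self c) ha
  have c2 : Conn G (insert a2 (insert a {c})) := conn_insert c1 (w := c) (by simp) ha2
  have c3 : Conn G (insert a3 (insert a2 (insert a {c}))) := conn_insert c2 (w := c) (by simp) ha3
  have c4 : Conn G (insert w (insert a3 (insert a2 (insert a {c})))) :=
    conn_insert c3 (w := a) (by simp) haw
  have hcard1 : (insert a ({c} : Finset V)).card = 2 := by
    rw [Finset.card_insert_of_notMem (by simp [hca.symm]), Finset.card_singleton]
  have hcard2 : (insert a2 (insert a ({c} : Finset V))).card = 3 := by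
    rw [Finset.card_insert_of_notMem (by simp [hca2.symm, h12.symm]), hcard1]
  have hcard3 : (insert a3 (insert a2 (insert a ({c} : Finset V)))).card = 4 := by
    rw [Finset.card_insert_of_notMem (by simp [hca3.symm, h13.symm, h23.symm]), hcard2]
  have hcard4 : (insert w (insert a3 (insert a2 (insert a ({c} : Finset V))))).card = 5 := by
    rw [Finset.card_insert_of_notMem (by simp [hwc, hwa, hwa2, hwa3]), hcard3]
  have hball : ∀ u ∈ (insert a3 (insert a2 (insert a ({c} : Finset V)))), G.dist c u ≤ 1 := by
    intro u hu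
    simp only [mem_insert, mem_singleton] at hu
    rcases hu with rfl | rfl | rfl | rfl
    · omega
    · omega
    · omega
    · simp
  have tri : ∀ u v, G.dist u v ≤ G.dist c u + G.dist c v := by
    intro u v
    have := hG.dist_triangle (u := u) (v := c) (w := v)
    rw [SimpleGraph.dist_comm (u := u) (v := c)] at this
    exact this
  constructor
  · have := gain_mono hG (k := 3) (c := 1) (by norm_num) hU c3 ⟨a3, by simp⟩ (subset_univ _)
      (Or.inr (by rw [hcard3]; norm_num)) (by
        rw [A_zero, hcard3]
        intro u hu v hv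
        have := hball u hu
        have := hball v hv
        have := tri u v
        omega)
    rwa [Finset.card_univ] at this
  · have := gain_mono hG (k := 4) (c := 1) (by norm_num) hU c4 ⟨a3, by simp⟩ (subset_univ _)
      (Or.inr (by rw [hcard4]; norm_num)) (by
        rw [A_zero, hcard4]
        intro u hu v hv
        rcases mem_insert.1 hu with hu | hu
        · rcases mem_insert.1 hv with hv | hv
          · rw [hu, hv]; simp
          · have := hball v hv
            have := tri u v
            rw [hu] at this ⊢
            omega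
        · rcases mem_insert.1 hv with hv | hv
          · have := hball u hu
            have := tri u v
            rw [hv] at this ⊢
            omega
          · have := hball u hu
            have := hball v hv
            have := tri u v
            omega)
    rwa [Finset.card_univ] at this

/-- a connected 2-regular graph with large eccentricities has big balls -/
lemma reg_ball [Fintype V] [DecidableRel G.Adj] (h4 : ∀ u, ∃ v, 4 ≤ G.dist u v)
    (hdeg : ∀ v, G.degree v = 2) (v : V) :
    5 ≤ (univ.filter (fun u => G.dist v u < 3)).card := by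
  have hU := conn_univ hG
  obtain ⟨v4, hv4⟩ := h4 v
  by_contra hlt
  push Not at hlt
  -- neighbours of v
  have hN : ∀ u, ∃ a b, a ≠ b ∧ G.Adj u a ∧ G.Adj u b ∧ ∀ z, G.Adj u z → z = a ∨ z = b := by
    intro u
    have h2 := hdeg u
    rw [← SimpleGraph.card_neighborFinset_eq_degree, Finset.card_eq_two] at h2
    obtain ⟨a, b, hab, hN⟩ := h2
    refine ⟨a, b, hab, ?_, ?_, ?_⟩
    · rw [← SimpleGraph.mem_neighborFinset, hN]; simp
    · rw [← SimpleGraph.mem_neighborFinset, hN]; simp
    · intro z hz
      rw [← SimpleGraph.mem_neighborFinset, hN] at hz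
      simpa using hz
  obtain ⟨p, _, q', _, hpq, h1, h2⟩ := cut hU (fun x => G.dist v x ≤ 2) (mem_univ v) (mem_univ v4)
    (by simp) (by simp; omega)
  obtain ⟨a, _, z, _, haz, h3, h4'⟩ := cut hU (fun x => G.dist v x ≤ 1) (mem_univ v) (mem_univ v4)
    (by simp) (by simp; omega)
  simp only [not_le] at h2 h4'
  have hl1 := lip hG hpq v
  have hl2 := lip hG haz v
  have dp : G.dist v p = 2 := by omega
  have dq : G.dist v q' = 3 := by omega
  have da : G.dist v a = 1 := by omega
  have dz : G.dist v z = 2 := by omega
  obtain ⟨a0, b0, hab0, hva0, hvb0, hv0⟩ := hN v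
  -- b : the other neighbour of v
  obtain ⟨b, hba, hvb⟩ : ∃ b, b ≠ a ∧ G.Adj v b := by
    by_cases h : a0 = a
    · exact ⟨b0, by rw [← h]; exact hab0.symm, hvb0⟩
    · exact ⟨a0, h, hva0⟩
  have hva : G.Adj v a := SimpleGraph.dist_eq_one_iff_adj.1 da
  have db : G.dist v b = 1 := SimpleGraph.dist_eq_one_iff_adj.2 hvb
  have hvN : ∀ y, G.Adj v y → y = a ∨ y = b := by
    intro y hy
    rcases hv0 y hy with h | h <;> rcases hv0 a hva with h' | h' <;>
      rcases hv0 b hvb with h'' | h''
    · left; rw [h, h']
    · left; rw [h, h']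
    · right; rw [h, h'']
    · exact absurd (h''.trans h'.symm) hba
    · exact absurd (h''.trans h'.symm) hba
    · right; rw [h, h'']
    · left; rw [h, h']
    · left; rw [h, h']
  -- level two is {z}
  have hzu : ∀ y, G.dist v y = 2 → y = z := by
    intro y hy
    by_contra hyz
    have hsub : insert y (insert z (insert b (insert a ({v} : Finset V)))) ⊆
        univ.filter (fun u => G.dist v u < 3) := by
      intro u hu
      simp only [mem_insert, mem_singleton] at hu
      rw [mem_filter]
      refine ⟨mem_univ _, ?_⟩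
      rcases hu with rfl | rfl | rfl | rfl | rfl
      · omega
      · omega
      · omega
      · omega
      · simp
    have hc := Finset.card_le_card hsub
    have hyb : y ≠ b := by rintro rfl; omega
    have hya : y ≠ a := by rintro rfl; omega
    have hyv : y ≠ v := by rintro rfl; simp at hy
    have hzb : z ≠ b := by rintro rfl; omega
    have hza : z ≠ a := by rintro rfl; omega
    have hzv : z ≠ v := by rintro rfl; simp at dz
    have hbv : b ≠ v := hvb.ne'
    have hav : a ≠ v := hva.ne'
    rw [Finset.card_insert_of_notMem (by simp [hyz, hyb, hya, hyv]),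
      Finset.card_insert_of_notMem (by simp [hzb, hza, hzv]),
      Finset.card_insert_of_notMem (by simp [hba, hbv]),
      Finset.card_insert_of_notMem (by simp [hav]), Finset.card_singleton] at hc
    omega
  have hpz : p = z := hzu p dp
  rw [hpz] at hpq
  -- neighbours of z are a and q'
  obtain ⟨z1, z2, hz12, hzz1, hzz2, hzN0⟩ := hN z
  have hzN : ∀ y, G.Adj z y → y = a ∨ y = q' := by
    intro y hy
    have haq : a ≠ q' := by rintro rfl; omega
    rcases hzN0 y hy with h | h <;> rcases hzN0 a haz.symm with h' | h' <;>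
      rcases hzN0 q' hpq with h'' | h''
    · left; rw [h, h']
    · left; rw [h, h']
    · right; rw [h, h'']
    · exact absurd (h'.trans h''.symm) haq
    · exact absurd (h'.trans h''.symm) haq
    · right; rw [h, h'']
    · left; rw [h, h']
    · left; rw [h, h']
  -- the other neighbour of b
  obtain ⟨b1, b2, hb12, hbb1, hbb2, hbN⟩ := hN b
  obtain ⟨b', hb'v, hbb'⟩ : ∃ b', b' ≠ v ∧ G.Adj b b' := by
    by_cases h : b1 = v
    · exact ⟨b2, by rw [← h]; exact hb12.symm, hbb2⟩
    · exact ⟨b1, h, hbb1⟩
  have hl3 := lip hG hbb' v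
  have h0 : 0 < G.dist v b' := hG.pos_dist_of_ne (Ne.symm hb'v)
  rcases Nat.lt_or_ge (G.dist v b') 2 with h5 | h5
  · have hvb' : G.Adj v b' := SimpleGraph.dist_eq_one_iff_adj.1 (by omega)
    rcases hvN b' hvb' with h6 | h6
    · -- a adjacent to b, v, z
      rw [h6] at hbb'
      obtain ⟨a1, a2, ha12, _, _, haN⟩ := hN a
      have hzv : z ≠ v := by rintro rfl; simp at dz
      have hzb : z ≠ b := by rintro rfl; omega
      have hbv : b ≠ v := hvb.ne'
      rcases haN z haz with h7 | h7 <;> rcases haN v hva.symm with h8 | h8 <;>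
        rcases haN b hbb'.symm with h9 | h9
      · exact hzv (h7.trans h8.symm)
      · exact hzv (h7.trans h8.symm)
      · exact hzb (h7.trans h9.symm)
      · exact hbv (h9.trans h8.symm)
      · exact hbv (h9.trans h8.symm)
      · exact hzb (h7.trans h9.symm)
      · exact hzv (h7.trans h8.symm)
      · exact hzv (h7.trans h8.symm)
    · rw [h6] at hbb'; exact hbb'.ne rfl
  · have hb'z : b' = z := hzu b' (by omega)
    rw [hb'z] at hbb'
    rcases hzN b hbb'.symm with h6 | h6
    · exact hba h6
    · rw [h6] at db; omega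

end Pool.Agent.Q285.WE
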