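import Pool.Agent.Q285.WE.Basic
set_option autoImplicit false
set_option linter.unusedSectionVars false
open Finset

noncomputable section

namespace Pool.Agent.Q285.WE

variable {V : Type*} [DecidableEq V] {G : SimpleGraph V} (hG : G.Connected)
include hG

lemma private_nb {k : ℕ} (hk : 3 ≤ k) {X : Finset V} (hc : Conn G X) {v : V} (hv : v ∈ X)
    (hcard : X.card ≤ 2 * k) (hB : (X.filter (fun u => k ≤ G.dist v u)).card + k = X.card)
    (hne : (X.filter (fun u => k ≤ G.dist v u)).Nonempty) :
    ∃ u ∈ X, k ≤ G.dist v u ∧ ∀ w ∈ X, w ≠ v → G.dist u w < k := by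
  have hs := filter_split (G := G) X v k
  have hScard : (X.filter (fun u => G.dist v u < k)).card = k := by omega
  obtain ⟨b0, hb0⟩ := hne
  rw [mem_filter] at hb0
  -- uniqueness in the ball
  have hsub : Finset.range k ⊆ (X.filter (fun u => G.dist v u < k)).image (G.dist v) := by
    intro j hj
    rw [Finset.mem_range] at hj
    obtain ⟨w, hw, hwj⟩ := level hG hc hv hb0.1 (j := j) (by omega)
    exact mem_image.2 ⟨w, mem_filter.2 ⟨hw, by omega⟩, hwj⟩
  have hinj : Set.InjOn (G.dist v) (X.filter (fun u => G.dist v u < k)) := by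
    apply Finset.card_image_iff.1
    apply le_antisymm Finset.card_image_le
    rw [hScard]
    calc k = (Finset.range k).card := (Finset.card_range k).symm
      _ ≤ _ := Finset.card_le_card hsub
  have huniq : ∀ x ∈ X, ∀ y ∈ X, G.dist v x = G.dist v y → G.dist v x < k → x = y := by
    intro x hx y hy h1 h2
    exact hinj (mem_coe.2 (mem_filter.2 ⟨hx, h2⟩)) (mem_coe.2 (mem_filter.2 ⟨hy, by omega⟩)) h1
  -- the gate
  obtain ⟨p, hp, u, hu, hpu, h1, h2⟩ := cut hc (fun x => G.dist v x < k) hv hb0.1
    (by simp; omega) (by simpa using hb0.2)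
  simp only [not_lt] at h2
  have hl1 := lip hG hpu v
  have hpk : G.dist v p = k - 1 := by omega
  -- distances to the gate
  have hgate : ∀ i, i ≤ k - 1 → ∀ x ∈ X, G.dist v x = k - 1 - i → G.dist x p ≤ i := by
    intro i
    induction i with
    | zero =>
      intro _ x hx hxd
      have : x = p := huniq x hx p hp (by omega) (by omega)
      rw [this]; simp
    | succ i ih =>
      intro hi x hx hxd
      obtain ⟨a, ha, b, hb, hab, h3, h4⟩ := cut hc (fun y => G.dist v y ≤ G.dist v x) hv hp
        (by simp) (by simp only [not_le]; omega)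
      simp only [not_le] at h4
      have h5 := lip hG hab v
      have hax : a = x := huniq a ha x hx (by omega) (by omega)
      have h6 := ih (by omega) b hb (by omega)
      have h7 := hG.dist_triangle (u := x) (v := b) (w := p)
      have h8 : G.dist x b = 1 := by
        rw [← hax]; exact SimpleGraph.dist_eq_one_iff_adj.2 hab
      omega
  have hstep3 : ∀ u' ∈ X, G.Adj p u' → ∀ w ∈ X, w ≠ v → G.dist v w < k → G.dist u' w < k := by
    intro u' _ hadj w hw hwv hwk
    have h3 := hgate (k - 1 - G.dist v w) (by omega) w hw (by omega)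
    have h4 := hG.dist_triangle (u := w) (v := p) (w := u')
    have h5 : G.dist p u' = 1 := SimpleGraph.dist_eq_one_iff_adj.2 hadj
    have h6 : 0 < G.dist v w := hG.pos_dist_of_ne (Ne.symm hwv)
    rw [SimpleGraph.dist_comm]
    omega
  by_cases hall : ∀ w ∈ X, k ≤ G.dist v w → G.dist u w < k
  · refine ⟨u, hu, h2, ?_⟩
    intro w hw hwv
    by_cases hwk : G.dist v w < k
    · exact hstep3 u hu hpu w hw hwv hwk
    · exact hall w hw (by omega)
  · push Not at hall
    obtain ⟨w, hw, hwk, hwu⟩ := hall
    have hhp : G.dist u p = 1 := by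
      rw [SimpleGraph.dist_comm]; exact SimpleGraph.dist_eq_one_iff_adj.2 hpu
    have hl : ∀ t, 2 ≤ t → t ≤ k → ∃ a ∈ X, k ≤ G.dist v a ∧ G.dist u a = t ∧
        ∃ b ∈ X, G.Adj a b ∧ ((k ≤ G.dist v b ∧ G.dist u b = t - 1) ∨ (b = p ∧ t = 2)) := by
      intro t ht htk
      obtain ⟨a, ha, b, hb, hab, h3, h4⟩ := cut hc (fun x => k ≤ G.dist v x ∧ t ≤ G.dist u x)
        hw hu ⟨hwk, by omega⟩ (by simp; omega)
      have h5 := lip' hG hab u
      have h6 := lip' hG hab v
      by_cases hbB : k ≤ G.dist v b
      · have h7 : G.dist u b < t := by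
          by_contra h8
          exact h4 ⟨hbB, by omega⟩
        exact ⟨a, ha, h3.1, by omega, b, hb, hab, Or.inl ⟨hbB, by omega⟩⟩
      · have hbp : b = p := huniq b hb p hp (by omega) (by omega)
        have h7 : G.dist u b = 1 := by rw [hbp]; exact hhp
        exact ⟨a, ha, h3.1, by omega, b, hb, hab, Or.inr ⟨hbp, by omega⟩⟩
    set B := X.filter (fun u => k ≤ G.dist v u) with hBdef
    have hBk : B.card ≤ k := by omega
    set T := (Finset.range (k + 1)).erase 1 with hT
    have hTcard : T.card = k := by
      rw [hT, Finset.card_erase_of_mem (by rw [mem_range]; omega), Finset.card_range]; omega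
    have hTsub : T ⊆ B.image (G.dist u) := by
      intro t ht
      rw [hT, mem_erase, mem_range] at ht
      rcases Nat.eq_zero_or_pos t with h0 | h0
      · rw [h0]
        exact mem_image.2 ⟨u, mem_filter.2 ⟨hu, h2⟩, by simp⟩
      · obtain ⟨a, ha, hak, hat, _⟩ := hl t (by omega) (by omega)
        exact mem_image.2 ⟨a, mem_filter.2 ⟨ha, hak⟩, hat⟩
    have hTeq : T = B.image (G.dist u) :=
      Finset.eq_of_subset_of_card_le hTsub (by
        calc (B.image (G.dist u)).card ≤ B.card := Finset.card_image_le
          _ ≤ T.card := by omega)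
    have hinj2 : Set.InjOn (G.dist u) B := by
      apply Finset.card_image_iff.1
      apply le_antisymm Finset.card_image_le
      rw [← hTeq]; omega
    have huniq2 : ∀ x ∈ X, k ≤ G.dist v x → ∀ y ∈ X, k ≤ G.dist v y →
        G.dist u x = G.dist u y → x = y := by
      intro x hx hxk y hy hyk hxy
      exact hinj2 (mem_coe.2 (mem_filter.2 ⟨hx, hxk⟩)) (mem_coe.2 (mem_filter.2 ⟨hy, hyk⟩)) hxy
    have hval : ∀ x ∈ X, k ≤ G.dist v x → G.dist u x ≠ 1 ∧ G.dist u x ≤ k := by
      intro x hx hxk
      have : G.dist u x ∈ T := by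
        rw [hTeq]; exact mem_image.2 ⟨x, mem_filter.2 ⟨hx, hxk⟩, rfl⟩
      rw [hT, mem_erase, mem_range] at this
      exact ⟨this.1, by omega⟩
    obtain ⟨x2, hx2, hx2k, hx2d, y, hy, hx2y, hor⟩ := hl 2 le_rfl (by omega)
    have hx2p : G.Adj p x2 := by
      rcases hor with ⟨h3, h4⟩ | ⟨h3, _⟩
      · exact absurd h4 (by simpa using (hval y hy h3).1)
      · rw [← h3]; exact hx2y.symm
    have hchain : ∀ t, 2 ≤ t → t ≤ k → ∀ x ∈ X, k ≤ G.dist v x → G.dist u x = t →
        G.dist x2 x ≤ t - 2 := by
      intro t ht
      induction t, ht using Nat.le_induction with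
      | base =>
        intro _ x hx hxk hxd
        have : x = x2 := huniq2 x hx hxk x2 hx2 hx2k (by omega)
        rw [this]; simp
      | succ t ht ih =>
        intro htk x hx hxk hxd
        obtain ⟨a, ha, hak, had, b, hb, hab, hor2⟩ := hl (t + 1) (by omega) htk
        have hax : a = x := huniq2 a ha hak x hx hxk (by omega)
        rcases hor2 with ⟨h3, h4⟩ | ⟨_, h4⟩
        · have h5 := ih (by omega) b hb h3 (by omega)
          have h6 := hG.dist_triangle (u := x2) (v := b) (w := x)
          have h7 : G.dist b x = 1 := by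
            rw [← hax]; exact SimpleGraph.dist_eq_one_iff_adj.2 hab.symm
          omega
        · omega
    refine ⟨x2, hx2, hx2k, ?_⟩
    intro w' hw' hwv'
    by_cases hwk' : G.dist v w' < k
    · exact hstep3 x2 hx2 hx2p w' hw' hwv' hwk'
    · have h3 := hval w' hw' (by omega)
      rcases Nat.eq_zero_or_pos (G.dist u w') with h0 | h0
      · have : w' = u := huniq2 w' hw' (by omega) u hu h2 (by simpa using h0)
        rw [this, SimpleGraph.dist_comm]; omega
      · have := hchain (G.dist u w') (by omega) h3.2 w' hw' (by omega) rfl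
        omega

omit hG

/-- twice the value of the path at level `k` -/
def q (k n : ℤ) : ℤ := (n - k + 1) * (n - k) - 2 * min n (2 * (n - k))

lemma M_insert_zero {k : ℕ} (hk : 1 ≤ k) {X : Finset V} {v : V}
    (h0 : dg G k v X = 0) : M G k (insert v X) = M G k X := by
  unfold dg at h0
  have hno : ∀ u ∈ X, ¬ k ≤ G.dist v u := by
    intro u hu hku
    have : u ∈ X.filter (fun u => k ≤ G.dist v u) := mem_filter.2 ⟨hu, hku⟩
    rw [Finset.card_eq_zero] at h0
    rw [h0] at this
    simp at this
  unfold M
  congr 1
  ext u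
  simp only [mem_filter, mem_insert]
  constructor
  · rintro ⟨hu, w, hw, hkw⟩
    rcases hu with rfl | hu
    · rcases hw with rfl | hw
      · simp at hkw; omega
      · exact absurd hkw (hno w hw)
    · rcases hw with rfl | hw
      · rw [SimpleGraph.dist_comm] at hkw
        exact absurd hkw (hno u hu)
      · exact ⟨hu, w, hw, hkw⟩
  · rintro ⟨hu, w, hw, hkw⟩
    exact ⟨Or.inr hu, w, Or.inr hw, hkw⟩

lemma M_insert_pos {k : ℕ} {X : Finset V} {v : V} (hv : v ∉ X)
    (h0 : 0 < dg G k v X) : M G k X + 1 ≤ M G k (insert v X) := by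
  unfold dg at h0
  obtain ⟨u, hu⟩ := Finset.card_pos.1 h0
  rw [mem_filter] at hu
  have hsub : insert v (X.filter (fun u => ∃ w ∈ X, k ≤ G.dist u w)) ⊆
      (insert v X).filter (fun u => ∃ w ∈ insert v X, k ≤ G.dist u w) := by
    intro x hx
    rcases mem_insert.1 hx with rfl | hx
    · exact mem_filter.2 ⟨mem_insert_self _ _, u, mem_insert_of_mem hu.1, hu.2⟩
    · obtain ⟨hx1, w, hw, hkw⟩ := mem_filter.1 hx
      exact mem_filter.2 ⟨mem_insert_of_mem hx1, w, mem_insert_of_mem hw, hkw⟩
  have := Finset.card_le_card hsub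
  rw [Finset.card_insert_of_notMem (by intro h; exact hv (mem_filter.1 h).1)] at this
  exact this

lemma M_insert_star {k : ℕ} {X : Finset V} {v : V} (hv : v ∉ X)
    (h0 : 0 < dg G k v X) : dg G k v X + 1 ≤ M G k (insert v X) := by
  unfold dg at h0 ⊢
  obtain ⟨u, hu⟩ := Finset.card_pos.1 h0
  rw [mem_filter] at hu
  have hsub : insert v (X.filter (fun u => k ≤ G.dist v u)) ⊆
      (insert v X).filter (fun u => ∃ w ∈ insert v X, k ≤ G.dist u w) := by
    intro x hx
    rcases mem_insert.1 hx with rfl | hx
    · exact mem_filter.2 ⟨mem_insert_self _ _, u, mem_insert_of_mem hu.1, hu.2⟩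
    · obtain ⟨hx1, hx2⟩ := mem_filter.1 hx
      refine mem_filter.2 ⟨mem_insert_of_mem hx1, v, mem_insert_self _ _, ?_⟩
      rw [SimpleGraph.dist_comm]; exact hx2
  have := Finset.card_le_card hsub
  rw [Finset.card_insert_of_notMem (by intro h; exact hv (mem_filter.1 h).1)] at this
  exact this

lemma M_insert_two {k : ℕ} {X : Finset V} {v : V} (hv : v ∉ X)
    (h : ∃ u ∈ insert v X, k ≤ G.dist v u ∧ ∀ w ∈ insert v X, w ≠ v → G.dist u w < k)
    (hk : 1 ≤ k) : M G k X + 2 ≤ M G k (insert v X) := by
  obtain ⟨u, hu, hku, hall⟩ := h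
  have huv : u ≠ v := by
    rintro rfl; simp at hku; omega
  have huX : u ∈ X := by
    rcases mem_insert.1 hu with h | h
    · exact absurd h huv
    · exact h
  have hsub : insert v (insert u (X.filter (fun u => ∃ w ∈ X, k ≤ G.dist u w))) ⊆
      (insert v X).filter (fun u => ∃ w ∈ insert v X, k ≤ G.dist u w) := by
    intro x hx
    rcases mem_insert.1 hx with rfl | hx
    · exact mem_filter.2 ⟨mem_insert_self _ _, u, hu, hku⟩
    · rcases mem_insert.1 hx with rfl | hx
      · refine mem_filter.2 ⟨hu, v, mem_insert_self _ _, ?_⟩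
        rw [SimpleGraph.dist_comm]; exact hku
      · obtain ⟨hx1, w, hw, hkw⟩ := mem_filter.1 hx
        exact mem_filter.2 ⟨mem_insert_of_mem hx1, w, mem_insert_of_mem hw, hkw⟩
  have := Finset.card_le_card hsub
  rw [Finset.card_insert_of_notMem, Finset.card_insert_of_notMem] at this
  · exact this
  · intro h
    obtain ⟨_, w, hw, hkw⟩ := mem_filter.1 h
    have := hall w (mem_insert_of_mem hw) (by rintro rfl; exact hv hw)
    omega
  · intro h
    rcases mem_insert.1 h with h | h
    · exact huv h.symm
    · exact hv (mem_filter.1 h).1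

lemma q_ge (k n : ℤ) (h : k + 1 ≤ n) : -2 ≤ q k n := by
  unfold q
  have h1 : min n (2 * (n - k)) ≤ 2 * (n - k) := min_le_right _ _
  have h2 : 1 ≤ n - k := by omega
  rcases eq_or_lt_of_le h2 with h3 | h3
  · rw [← h3] at h1 ⊢; omega
  · have h4 : 2 ≤ n - k := by omega
    nlinarith

lemma q_step_small (k n : ℤ) (h : k ≤ n) (h2 : n + 1 ≤ 2 * k) :
    q k (n + 1) = q k n + 2 * (n - k) - 2 := by
  unfold q
  rw [min_eq_right (by omega), min_eq_right (by omega)]
  ring

lemma q_step_large (k n : ℤ) (h2 : 2 * k ≤ n) :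
    q k (n + 1) = q k n + 2 * (n - k) := by
  unfold q
  rw [min_eq_left (by omega), min_eq_left (by omega)]
  ring

include hG

lemma T_le {k : ℕ} (hk : 3 ≤ k) {Z : Finset V} (hZ : Conn G Z) (hne : Z.Nonempty) :
    A G k Z = 0 ∨ (A G k Z : ℤ) - 2 * M G k Z ≤ q k Z.card := by
  obtain ⟨z, hz⟩ := hne
  refine grow hZ (conn_singleton (G := G) z) (Finset.singleton_nonempty z)
    (Finset.singleton_subset_iff.2 hz)
    (fun X => A G k X = 0 ∨ (A G k X : ℤ) - 2 * M G k X ≤ q k X.card) ?_ ?_
  · left; unfold A; simp; omega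
  · intro X v w hX hv hw hwv hQ
    have hcard : (insert v X).card = X.card + 1 := Finset.card_insert_of_notMem hv
    have hA := A_insert (G := G) (k := k) (by omega) hv
    have hd := dg_le hG (k := k) (by omega) hX hv hw hwv
    have hXne : X.Nonempty := ⟨w, hw⟩
    rcases Nat.eq_zero_or_pos (dg G k v X) with h0 | h0
    · rw [h0] at hA
      have hM := M_insert_zero (G := G) (k := k) (by omega) h0
      rcases hQ with hQ | hQ
      · left; omega
      · rcases Nat.eq_zero_or_pos (A G k X) with hA0 | hA0
        · left; omega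
        · right
          have hAX := A_le hG (k := k) (by omega) hX hXne
          have hXk : k + 1 ≤ X.card := by
            by_contra hcon
            have : X.card - k = 0 := by omega
            rw [this] at hAX; omega
          have hqm : q k (X.card : ℤ) ≤ q k ((X.card : ℤ) + 1) := by
            by_cases hs : (X.card : ℤ) + 1 ≤ 2 * k
            · rw [q_step_small _ _ (by omega) hs]; omega
            · rw [q_step_large _ _ (by omega)]; omega
          rw [hA, hM, hcard]
          push_cast
          linarith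
    · right
      rcases Nat.eq_zero_or_pos (A G k X) with hA0 | hA0
      · have hM := M_insert_star hv h0
        have hq := q_ge (k : ℤ) ((X.card : ℤ) + 1) (by omega)
        rw [hA, hcard]
        push_cast
        omega
      · have hQ' : (A G k X : ℤ) - 2 * M G k X ≤ q k X.card := by
          rcases hQ with hQ | hQ
          · omega
          · exact hQ
        have hAX := A_le hG (k := k) (by omega) hX hXne
        have hXk : k + 1 ≤ X.card := by
          by_contra hcon
          have : X.card - k = 0 := by omega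
          rw [this] at hAX; omega
        have hM1 := M_insert_pos hv h0
        rw [hA, hcard]
        push_cast
        by_cases hs : (X.card : ℤ) + 1 ≤ 2 * k
        · rw [q_step_small _ _ (by omega) hs]
          by_cases hfull : dg G k v X + k = X.card + 1
          · have hE : (insert v X).filter (fun u => k ≤ G.dist v u)
                = X.filter (fun u => k ≤ G.dist v u) := by
              rw [Finset.filter_insert, if_neg]; simp; omega
            have hpr := private_nb hG hk (conn_insert hX hw hwv) (mem_insert_self v X)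
              (by rw [hcard]; omega) (by rw [hE, hcard]; exact hfull)
              (by rw [hE]; exact Finset.card_pos.1 h0)
            have hM2 := M_insert_two hv hpr (by omega)
            omega
          · omega
        · rw [q_step_large _ _ (by omega)]
          omega

end Pool.Agent.Q285.WE
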