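import Pool.Agent.Q285.WE.Final
set_option autoImplicit false
set_option linter.unusedSectionVars false
open Finset

noncomputable section

namespace Pool.Agent.Q285.WE

/-- sum of all distances on a path, by coordinates -/
lemma sum_abs (n : ℕ) :
    3 * ∑ i ∈ Finset.range n, ∑ j ∈ Finset.range n, |(i : ℤ) - j| = (n : ℤ) ^ 3 - n := by
  induction n with
  | zero => simp
  | succ n ih =>
    have h1 : ∑ i ∈ Finset.range (n + 1), ∑ j ∈ Finset.range (n + 1), |(i : ℤ) - j|
        = ∑ i ∈ Finset.range n, ∑ j ∈ Finset.range n, |(i : ℤ) - j|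
          + 2 * ∑ i ∈ Finset.range n, ((n : ℤ) - i) := by
      rw [Finset.sum_range_succ]
      have h2 : ∀ i ∈ Finset.range n, ∑ j ∈ Finset.range (n + 1), |(i : ℤ) - j|
          = ∑ j ∈ Finset.range n, |(i : ℤ) - j| + ((n : ℤ) - i) := by
        intro i hi
        rw [Finset.mem_range] at hi
        rw [Finset.sum_range_succ]
        congr 1
        rw [abs_sub_comm, abs_of_nonneg]; omega
      rw [Finset.sum_congr rfl h2, Finset.sum_add_distrib, Finset.sum_range_succ]
      have h3 : ∑ j ∈ Finset.range n, |(n : ℤ) - j| = ∑ i ∈ Finset.range n, ((n : ℤ) - i) := by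
        refine Finset.sum_congr rfl fun j hj => ?_
        rw [Finset.mem_range] at hj
        rw [abs_of_nonneg]; omega
      rw [h3]; simp; ring
    have h4 : 2 * ∑ i ∈ Finset.range n, ((n : ℤ) - i) = (n : ℤ) ^ 2 + n := by
      rw [Finset.sum_sub_distrib]
      have h5 : ∀ m : ℕ, 2 * ∑ i ∈ Finset.range m, (i : ℤ) = (m : ℤ) ^ 2 - m := by
        intro m
        induction m with
        | zero => simp
        | succ m ihm => rw [Finset.sum_range_succ, mul_add, ihm]; push_cast; ring
      rw [mul_sub, h5]; simp; ring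
    rw [h1, mul_add, ih, h4]
    push_cast
    ring

def Em (n : ℕ) : ℤ := ∑ i ∈ Finset.range n, max (i : ℤ) ((n : ℤ) - 1 - i)

lemma Em_step (n : ℕ) : Em (n + 2) = Em n + (3 * n + 2) := by
  unfold Em
  rw [Finset.sum_range_succ, Finset.sum_range_succ']
  have h1 : ∀ m ∈ Finset.range n, max ((m + 1 : ℕ) : ℤ) (((n + 2 : ℕ) : ℤ) - 1 - ((m + 1 : ℕ) : ℤ))
      = max (m : ℤ) ((n : ℤ) - 1 - m) + 1 := by
    intro m _
    push_cast
    rw [show (n : ℤ) + 2 - 1 - (m + 1) = ((n : ℤ) - 1 - m) + 1 by ring, max_add_add_right]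
  rw [Finset.sum_congr rfl h1, Finset.sum_add_distrib, Finset.sum_const, Finset.card_range]
  have h2 : max (((0 : ℕ)) : ℤ) (((n + 2 : ℕ) : ℤ) - 1 - ((0 : ℕ) : ℤ)) = n + 1 := by
    rw [max_eq_right] <;> push_cast <;> omega
  have h3 : max (((n + 1 : ℕ)) : ℤ) (((n + 2 : ℕ) : ℤ) - 1 - ((n + 1 : ℕ) : ℤ)) = n + 1 := by
    rw [max_eq_left] <;> push_cast <;> omega
  rw [h2, h3]
  simp
  ring

lemma Em_eq (n : ℕ) : 4 * Em n = 3 * (n : ℤ) ^ 2 - 2 * n - (n % 2 : ℕ) := by
  induction n using Nat.twoStepInduction with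
  | zero => simp [Em]
  | one => simp [Em]
  | more n ih _ =>
    rw [Em_step, mul_add, ih, Nat.add_mod_right]
    push_cast
    ring

variable {V : Type*} [DecidableEq V] {G : SimpleGraph V}

/-- distances in a graph isomorphic to a path -/
lemma dist_path {n : ℕ} (hG : G.Connected) (φ : G ≃g SimpleGraph.pathGraph n) (u v : V) :
    (G.dist u v : ℤ) = |((φ u : Fin n) : ℤ) - ((φ v : Fin n) : ℤ)| := by
  have hadj : ∀ a b : V, G.Adj a b ↔
      ((φ a : Fin n) : ℕ) + 1 = (φ b : Fin n) ∨ ((φ b : Fin n) : ℕ) + 1 = (φ a : Fin n) := by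
    intro a b
    rw [← φ.map_adj_iff, SimpleGraph.pathGraph_adj]
  -- lower bound
  have hlow : ∀ {a b : V} (p : G.Walk a b),
      |((φ a : Fin n) : ℤ) - ((φ b : Fin n) : ℤ)| ≤ p.length := by
    intro a b p
    induction p with
    | nil => simp
    | cons h p ih =>
      rename_i a c b
      rw [SimpleGraph.Walk.length_cons]
      have h1 := (hadj a c).1 h
      rw [abs_le] at ih ⊢
      push_cast
      rcases h1 with h1 | h1 <;> constructor <;> omega
  -- upper bound
  have hup : ∀ (j : ℕ) (a b : V), ((φ a : Fin n) : ℕ) + j = (φ b : Fin n) → G.dist a b ≤ j := by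
    intro j
    induction j with
    | zero =>
      intro a b h
      have : φ a = φ b := Fin.ext (by simpa using h)
      rw [φ.injective this]; simp
    | succ j ih =>
      intro a b h
      have hlt : ((φ a : Fin n) : ℕ) + 1 < n := by
        have := (φ b).isLt; omega
      set c := φ.symm ⟨((φ a : Fin n) : ℕ) + 1, hlt⟩ with hc
      have hφc : ((φ c : Fin n) : ℕ) = ((φ a : Fin n) : ℕ) + 1 := by
        rw [hc]; simp
      have hac : G.Adj a c := (hadj a c).2 (Or.inl hφc.symm)
      have h1 := ih c b (by omega)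
      have h2 := hG.dist_triangle (u := a) (v := c) (w := b)
      rw [SimpleGraph.dist_eq_one_iff_adj.2 hac] at h2
      omega
  apply le_antisymm
  · rcases le_total ((φ u : Fin n) : ℕ) ((φ v : Fin n) : ℕ) with h | h
    · have := hup (((φ v : Fin n) : ℕ) - ((φ u : Fin n) : ℕ)) u v (by omega)
      rw [abs_sub_comm, abs_of_nonneg (by omega)]
      omega
    · have := hup (((φ u : Fin n) : ℕ) - ((φ v : Fin n) : ℕ)) v u (by omega)
      rw [SimpleGraph.dist_comm, abs_of_nonneg (by omega)]
      omega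
  · obtain ⟨p, hp⟩ := hG.exists_walk_length_eq_dist u v
    rw [← hp]
    exact hlow p

lemma ec_path [Fintype V] {n : ℕ} (hG : G.Connected) (φ : G ≃g SimpleGraph.pathGraph n) (u : V) :
    (ec G u : ℤ) = max ((φ u : Fin n) : ℤ) ((n : ℤ) - 1 - ((φ u : Fin n) : ℤ)) := by
  have hn : 0 < n := lt_of_le_of_lt (Nat.zero_le _) (φ u).isLt
  have hu := (φ u).isLt
  apply le_antisymm
  · have h1 : ec G u ≤ max ((φ u : Fin n) : ℕ) (n - 1 - ((φ u : Fin n) : ℕ)) := by
      unfold ec
      refine Finset.sup_le fun v _ => ?_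
      have h2 := dist_path hG φ u v
      have hv := (φ v).isLt
      rw [le_max_iff]
      rcases abs_cases (((φ u : Fin n) : ℤ) - ((φ v : Fin n) : ℤ)) with h3 | h3 <;> omega
    rcases max_cases ((φ u : Fin n) : ℕ) (n - 1 - ((φ u : Fin n) : ℕ)) with h2 | h2
    · rw [le_max_iff]; omega
    · rw [le_max_iff]; omega
  · rw [max_le_iff]
    constructor
    · have h1 : G.dist u (φ.symm ⟨0, hn⟩) ≤ ec G u :=
        Finset.le_sup (f := fun v => G.dist u v) (mem_univ _)
      have h2 := dist_path hG φ u (φ.symm ⟨0, hn⟩)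
      simp only [RelIso.apply_symm_apply] at h2
      rcases abs_cases (((φ u : Fin n) : ℤ) - (((⟨0, hn⟩ : Fin n) : ℕ) : ℤ)) with h3 | h3 <;>
        simp only at h3 h2 <;> omega
    · have h1 : G.dist u (φ.symm ⟨n - 1, by omega⟩) ≤ ec G u :=
        Finset.le_sup (f := fun v => G.dist u v) (mem_univ _)
      have h2 := dist_path hG φ u (φ.symm ⟨n - 1, by omega⟩)
      simp only [RelIso.apply_symm_apply] at h2
      rcases abs_cases (((φ u : Fin n) : ℤ) - (((⟨n - 1, by omega⟩ : Fin n) : ℕ) : ℤ))
        with h3 | h3 <;> simp only at h3 h2 <;> omega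

/-- the path attains the bound -/
lemma path_value [Fintype V] (hG : G.Connected)
    (φ : G ≃g SimpleGraph.pathGraph (Fintype.card V)) (hn : 1 ≤ Fintype.card V) :
    ((∑ u : V, ∑ v : V, G.dist u v : ℕ) : ℤ) - 2 * ((∑ u : V, ec G u : ℕ) : ℤ)
      = Ss (Fintype.card V) := by
  set n := Fintype.card V with hndef
  have h1 : ((∑ u : V, ∑ v : V, G.dist u v : ℕ) : ℤ)
      = ∑ i ∈ Finset.range n, ∑ j ∈ Finset.range n, |(i : ℤ) - j| := by
    push_cast
    have e1 : ∀ u : V, ∑ v : V, (G.dist u v : ℤ)
        = ∑ j ∈ Finset.range n, |((φ u : Fin n) : ℤ) - j| := by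
      intro u
      rw [← Fin.sum_univ_eq_sum_range (fun j => |((φ u : Fin n) : ℤ) - (j : ℤ)|) n]
      rw [← Equiv.sum_comp φ.toEquiv]
      refine Finset.sum_congr rfl fun v _ => ?_
      rw [dist_path hG φ u v]; rfl
    rw [Finset.sum_congr rfl (fun u _ => e1 u)]
    rw [← Fin.sum_univ_eq_sum_range (fun i => ∑ j ∈ Finset.range n, |(i : ℤ) - j|) n]
    rw [← Equiv.sum_comp φ.toEquiv]
    rfl
  have h2 : ((∑ u : V, ec G u : ℕ) : ℤ) = Em n := by
    push_cast
    unfold Em
    rw [← Fin.sum_univ_eq_sum_range (fun i => max (i : ℤ) ((n : ℤ) - 1 - i)) n]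
    rw [← Equiv.sum_comp φ.toEquiv]
    refine Finset.sum_congr rfl fun v _ => ?_
    rw [ec_path hG φ v]; rfl
  rw [h1, h2]
  have h3 := sum_abs n
  have h4 := Em_eq n
  have h5 := Ss_val n hn
  linarith

/-- a geodesic through all the vertices makes the graph a path -/
lemma iso_path [Fintype V] (hG : G.Connected) {x y : V}
    (hD : G.dist x y + 1 = Fintype.card V) :
    Nonempty (G ≃g SimpleGraph.pathGraph (Fintype.card V)) := by
  obtain ⟨p, hp⟩ := hG.exists_walk_length_eq_dist x y
  have hpos := geo_pos hG p hp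
  set n := Fintype.card V with hndef
  let f : Fin n → V := fun i => p.getVert i
  have hf : Function.Injective f := by
    intro i j hij
    have h1 := hpos i (by have := i.isLt; omega)
    have h2 := hpos j (by have := j.isLt; omega)
    have h3 : p.getVert i = p.getVert j := hij
    rw [h3] at h1
    exact Fin.ext (by omega)
  have hb : Function.Bijective f := (Fintype.bijective_iff_injective_and_card f).2
    ⟨hf, by rw [Fintype.card_fin]⟩
  let e : SimpleGraph.pathGraph n ≃g G :=
    { toEquiv := Equiv.ofBijective f hb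
      map_rel_iff' := by
        intro i j
        rw [SimpleGraph.pathGraph_adj]
        show G.Adj (p.getVert i) (p.getVert j) ↔ _
        have hi := i.isLt
        have hj := j.isLt
        constructor
        · intro h
          have h1 := hpos i (by omega)
          have h2 := hpos j (by omega)
          have h3 := lip hG h x
          have h4 := lip' hG h x
          have h5 : (i : ℕ) ≠ j := by
            intro h6
            rw [h6] at h
            exact h.ne rfl
          omega
        · rintro (h | h)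
          · rw [← h]; exact p.adj_getVert_succ (i := i) (by omega)
          · rw [← h]; exact (p.adj_getVert_succ (i := j) (by omega)).symm }
  exact ⟨e.symm⟩

end Pool.Agent.Q285.WE
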