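import Pool.Agent.Q285.WE.Gains
set_option autoImplicit false
set_option linter.unusedSectionVars false
open Finset

noncomputable section

namespace Pool.Agent.Q285.WE

variable {V : Type*} [DecidableEq V] {G : SimpleGraph V} (hG : G.Connected)
include hG

/-- In a forest, a vertex outside a geodesic adjacent to its starting point prolongs it. -/
lemma tree_end (hT : G.IsAcyclic) {x y v : V} (p : G.Walk x y) (hp : p.length = G.dist x y)
    (hv : v ∉ p.support) (hadj : G.Adj v x) : G.dist v y = G.dist x y + 1 := by
  have hpath := SimpleGraph.Walk.isPath_of_length_eq_dist p hp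
  have hc : (SimpleGraph.Walk.cons hadj p).IsPath := hpath.cons hv
  obtain ⟨q, hq, hql⟩ := hG.exists_path_of_dist v y
  have h1 : (⟨_, hc⟩ : G.Path v y) = ⟨q, hq⟩ := (hT.subsingleton_path v y).elim _ _
  have h2 : SimpleGraph.Walk.cons hadj p = q := congrArg Subtype.val h1
  rw [← hql, ← h2, SimpleGraph.Walk.length_cons, hp]

/-- positions along a geodesic -/
lemma geo_pos {x y : V} (p : G.Walk x y) (hp : p.length = G.dist x y) :
    ∀ i ≤ G.dist x y, G.dist x (p.getVert i) = i := by
  have h1 : ∀ i ≤ G.dist x y, G.dist x (p.getVert i) ≤ i := by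
    intro i
    induction i with
    | zero => intro _; simp
    | succ i ih =>
      intro hi
      have h2 := lip hG (p.adj_getVert_succ (i := i) (by omega)) x
      have h3 := ih (by omega)
      omega
  have h2 : ∀ j i, i + j = G.dist x y → G.dist (p.getVert i) y ≤ j := by
    intro j
    induction j with
    | zero =>
      intro i hi
      have : p.getVert i = y := by
        apply SimpleGraph.Walk.getVert_of_length_le; omega
      rw [this]; simp
    | succ j ih =>
      intro i hi
      have h3 := ih (i + 1) (by omega)
      have h4 := hG.dist_triangle (u := p.getVert i) (v := p.getVert (i + 1)) (w := y)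
      have h5 : G.dist (p.getVert i) (p.getVert (i + 1)) = 1 :=
        SimpleGraph.dist_eq_one_iff_adj.2 (p.adj_getVert_succ (i := i) (by omega))
      omega
  intro i hi
  have h3 := h1 i hi
  have h4 := h2 (G.dist x y - i) i (by omega)
  have h5 := hG.dist_triangle (u := x) (v := p.getVert i) (w := y)
  omega

/-- the vertex set of a geodesic -/
def Pset {x y : V} (p : G.Walk x y) : Finset V := (Finset.range (G.dist x y + 1)).image p.getVert

lemma Pset_card {x y : V} (p : G.Walk x y) (hp : p.length = G.dist x y) :
    (Pset p).card = G.dist x y + 1 := by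
  unfold Pset
  rw [Finset.card_image_of_injOn, Finset.card_range]
  intro i hi j hj hij
  simp only [coe_range, Set.mem_Iio] at hi hj
  have h1 := geo_pos hG p hp i (by omega)
  have h2 := geo_pos hG p hp j (by omega)
  rw [hij] at h1
  omega

lemma Pset_conn {x y : V} (p : G.Walk x y) (hp : p.length = G.dist x y) :
    Conn G (Pset p) := by
  have : ∀ j ≤ G.dist x y, Conn G ((Finset.range (j + 1)).image p.getVert) := by
    intro j
    induction j with
    | zero => intro _; simpa using conn_singleton x
    | succ j ih =>
      intro hj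
      rw [Finset.range_add_one, Finset.image_insert]
      exact conn_insert (ih (by omega)) (w := p.getVert j)
        (mem_image.2 ⟨j, mem_range.2 (by omega), rfl⟩) (p.adj_getVert_succ (i := j) (by omega))
  exact this _ le_rfl

lemma Pset_support {x y v : V} (p : G.Walk x y) (hp : p.length = G.dist x y) (hv : v ∉ Pset p) :
    v ∉ p.support := by
  intro h
  obtain ⟨i, hi, hil⟩ := SimpleGraph.Walk.mem_support_iff_exists_getVert.1 h
  exact hv (mem_image.2 ⟨i, mem_range.2 (by omega), hi⟩)

/-- attachment point of an outside vertex is an inner vertex -/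
lemma inner_att (hT : G.IsAcyclic) {x y : V} (p : G.Walk x y) (hp : p.length = G.dist x y)
    (hmax : ∀ u v, G.dist u v ≤ G.dist x y) {v a : V} (hv : v ∉ Pset p) (ha : a ∈ Pset p)
    (hav : G.Adj a v) : ∃ i, 1 ≤ i ∧ i + 1 ≤ G.dist x y ∧ a = p.getVert i := by
  have hs := Pset_support hG p hp hv
  obtain ⟨i, hi, hia⟩ := mem_image.1 ha
  rw [mem_range] at hi
  refine ⟨i, ?_, ?_, hia.symm⟩
  · by_contra h0
    have : i = 0 := by omega
    rw [this, SimpleGraph.Walk.getVert_zero] at hia
    rw [← hia] at hav
    have h1 := tree_end hG hT p hp hs hav.symm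
    have h2 := hmax v y
    omega
  · by_contra h0
    have : a = y := by
      rw [← hia]; apply SimpleGraph.Walk.getVert_of_length_le; omega
    rw [this] at hav
    have h1 := tree_end hG hT p.reverse (by
      rw [SimpleGraph.Walk.length_reverse, SimpleGraph.dist_comm]; exact hp)
      (by rw [SimpleGraph.Walk.support_reverse, List.mem_reverse]; exact hs) hav.symm
    have h2 := hmax v x
    have h3 : G.dist y x = G.dist x y := SimpleGraph.dist_comm
    omega

lemma tree_gain [Fintype V] (hT : G.IsAcyclic) {x y : V}
    (hmax : ∀ u v, G.dist u v ≤ G.dist x y) (hD4 : 4 ≤ G.dist x y)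
    (hD : G.dist x y + 2 ≤ Fintype.card V) :
    A G 3 univ + 2 * 1 ≤ (Fintype.card V - 3 + 1) * (Fintype.card V - 3) ∧
    ∃ g, 1 ≤ g ∧ (G.dist x y + 3 ≤ Fintype.card V → 2 ≤ g) ∧
      A G 4 univ + 2 * g ≤ (Fintype.card V - 4 + 1) * (Fintype.card V - 4) := by
  have hU := conn_univ hG
  obtain ⟨p, hp⟩ := hG.exists_walk_length_eq_dist x y
  set D := G.dist x y with hDdef
  have hPc := Pset_card hG p hp
  have hPconn := Pset_conn hG p hp
  have hPne : (Pset p).Nonempty := by rw [← Finset.card_pos]; omega
  have hmem : ∀ i ≤ D, p.getVert i ∈ Pset p := fun i hi =>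
    mem_image.2 ⟨i, mem_range.2 (by omega), rfl⟩
  have hpos := geo_pos hG p hp
  have hinj : ∀ i ≤ D, ∀ j ≤ D, i ≠ j → p.getVert i ≠ p.getVert j := by
    intro i hi j hj hij h
    have h1 := hpos i hi
    have h2 := hpos j hj
    rw [h] at h1; omega
  -- first outside vertex
  obtain ⟨v0, hv0⟩ : ∃ v0, v0 ∉ Pset p := by
    by_contra h
    push Not at h
    have : (Pset p) = univ := Finset.eq_univ_of_forall h
    rw [this, Finset.card_univ] at hPc
    omega
  obtain ⟨a, _, v, _, hav, haP, hvP⟩ := cut hU (fun z => z ∈ Pset p) (mem_univ x) (mem_univ v0)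
    (by have := hmem 0 (by omega); rwa [SimpleGraph.Walk.getVert_zero] at this) hv0
  obtain ⟨i, hi1, hiD, hia⟩ := inner_att hG hT p hp hmax hvP haP hav
  -- distances from an outside vertex attached at an inner vertex
  have hclose : ∀ (v : V) (i : ℕ), 1 ≤ i → i + 1 ≤ D → G.Adj (p.getVert i) v →
      G.dist v (p.getVert i) ≤ 1 ∧ G.dist v (p.getVert (i + 1)) ≤ 2 ∧
      G.dist v (p.getVert (i - 1)) ≤ 2 ∧ (i + 2 ≤ D → G.dist v (p.getVert (i + 2)) ≤ 3) ∧
      (2 ≤ i → G.dist v (p.getVert (i - 2)) ≤ 3) := by
    intro v i hi1 hiD hadj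
    have e1 : G.dist v (p.getVert i) = 1 := SimpleGraph.dist_eq_one_iff_adj.2 hadj.symm
    have e2 := lip hG (p.adj_getVert_succ (i := i) (by omega)) v
    have e3 := lip' hG (p.adj_getVert_succ (i := i - 1) (by omega)) v
    rw [Nat.sub_add_cancel hi1] at e3
    refine ⟨by omega, by omega, by omega, ?_, ?_⟩
    · intro h
      have e4 := lip hG (p.adj_getVert_succ (i := i + 1) (by omega)) v
      rw [show i + 1 + 1 = i + 2 by ring] at e4
      omega
    · intro h
      have e4 := lip' hG (p.adj_getVert_succ (i := i - 2) (by omega)) v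
      rw [show i - 2 + 1 = i - 1 by omega] at e4
      omega
  have hvne : ∀ (v : V), v ∉ Pset p → ∀ i ≤ D, v ≠ p.getVert i := by
    intro v hv i hi h
    exact hv (h ▸ hmem i hi)
  -- four close vertices
  have hfour : ∀ (v : V) (i : ℕ), v ∉ Pset p → 1 ≤ i → i + 1 ≤ D → G.Adj (p.getVert i) v →
      ∃ S : Finset V, S ⊆ insert v (Pset p) ∧ (∀ u ∈ S, G.dist v u < 3) ∧ 3 + 1 ≤ S.card := by
    intro v i hv hi1 hiD hadj
    obtain ⟨e1, e2, e3, _, _⟩ := hclose v i hi1 hiD hadj
    refine ⟨insert v (insert (p.getVert i) (insert (p.getVert (i + 1)) {p.getVert (i - 1)})),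
      ?_, ?_, ?_⟩
    · intro u hu
      simp only [mem_insert, mem_singleton] at hu
      rcases hu with rfl | rfl | rfl | rfl
      · exact mem_insert_self _ _
      · exact mem_insert_of_mem (hmem _ (by omega))
      · exact mem_insert_of_mem (hmem _ (by omega))
      · exact mem_insert_of_mem (hmem _ (by omega))
    · intro u hu
      simp only [mem_insert, mem_singleton] at hu
      rcases hu with rfl | rfl | rfl | rfl
      · simp
      · omega
      · omega
      · omega
    · rw [Finset.card_insert_of_notMem, Finset.card_insert_of_notMem,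
        Finset.card_insert_of_notMem, Finset.card_singleton]
      · simp only [mem_singleton]; exact hinj _ (by omega) _ (by omega) (by omega)
      · simp only [mem_insert, mem_singleton, not_or]
        exact ⟨hinj _ (by omega) _ (by omega) (by omega), hinj _ (by omega) _ (by omega) (by omega)⟩
      · simp only [mem_insert, mem_singleton, not_or]
        exact ⟨hvne v hv _ (by omega), hvne v hv _ (by omega), hvne v hv _ (by omega)⟩
  -- five close vertices
  have hfive : ∀ (v : V) (i : ℕ), v ∉ Pset p → 1 ≤ i → i + 1 ≤ D → G.Adj (p.getVert i) v →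
      ∃ S : Finset V, S ⊆ insert v (Pset p) ∧ (∀ u ∈ S, G.dist v u < 4) ∧ 4 + 1 ≤ S.card := by
    intro v i hv hi1 hiD hadj
    obtain ⟨e1, e2, e3, e4, e5⟩ := hclose v i hi1 hiD hadj
    obtain ⟨j, hjD, hj1, hj2, hj3, hjd⟩ : ∃ j, j ≤ D ∧ j ≠ i ∧ j ≠ i + 1 ∧ j ≠ i - 1 ∧
        G.dist v (p.getVert j) ≤ 3 := by
      by_cases h : 2 ≤ i
      · exact ⟨i - 2, by omega, by omega, by omega, by omega, e5 h⟩
      · exact ⟨i + 2, by omega, by omega, by omega, by omega, e4 (by omega)⟩
    refine ⟨insert v (insert (p.getVert j) (insert (p.getVert i)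
      (insert (p.getVert (i + 1)) {p.getVert (i - 1)}))), ?_, ?_, ?_⟩
    · intro u hu
      simp only [mem_insert, mem_singleton] at hu
      rcases hu with rfl | rfl | rfl | rfl | rfl
      · exact mem_insert_self _ _
      · exact mem_insert_of_mem (hmem _ (by omega))
      · exact mem_insert_of_mem (hmem _ (by omega))
      · exact mem_insert_of_mem (hmem _ (by omega))
      · exact mem_insert_of_mem (hmem _ (by omega))
    · intro u hu
      simp only [mem_insert, mem_singleton] at hu
      rcases hu with rfl | rfl | rfl | rfl | rfl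
      · simp
      · omega
      · omega
      · omega
      · omega
    · rw [Finset.card_insert_of_notMem, Finset.card_insert_of_notMem,
        Finset.card_insert_of_notMem, Finset.card_insert_of_notMem, Finset.card_singleton]
      · simp only [mem_singleton]; exact hinj _ (by omega) _ (by omega) (by omega)
      · simp only [mem_insert, mem_singleton, not_or]
        exact ⟨hinj _ (by omega) _ (by omega) (by omega), hinj _ (by omega) _ (by omega) (by omega)⟩
      · simp only [mem_insert, mem_singleton, not_or]
        exact ⟨hinj _ (by omega) _ (by omega) hj1, hinj _ (by omega) _ (by omega) hj2,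
          hinj _ (by omega) _ (by omega) hj3⟩
      · simp only [mem_insert, mem_singleton, not_or]
        exact ⟨hvne v hv _ (by omega), hvne v hv _ (by omega), hvne v hv _ (by omega),
          hvne v hv _ (by omega)⟩
  rw [hia] at hav
  have hX1 : Conn G (insert v (Pset p)) := conn_insert hPconn (hmem i (by omega)) hav
  have hX1c : (insert v (Pset p)).card = D + 2 := by
    rw [Finset.card_insert_of_notMem hvP, hPc]
  have hA3P : A G 3 (Pset p) + 2 * 0 ≤ (D - 2 + 1) * (D - 2) := by
    have := A_le hG (k := 3) (by norm_num) hPconn hPne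
    rw [hPc, show D + 1 - 3 = D - 2 by omega] at this
    omega
  have hA4P : A G 4 (Pset p) + 2 * 0 ≤ (D - 3 + 1) * (D - 3) := by
    have := A_le hG (k := 4) (by norm_num) hPconn hPne
    rw [hPc, show D + 1 - 4 = D - 3 by omega] at this
    omega
  obtain ⟨S, hS1, hS2, hS3⟩ := hfour v i hvP hi1 hiD hav
  have hA3 := gain_step hG (k := 3) (c := 0) (r := 1) (m := D - 2) (by norm_num) hvP
    (by omega) S hS1 hS2 hS3 hA3P
  obtain ⟨S', hS1', hS2', hS3'⟩ := hfive v i hvP hi1 hiD hav
  have hA4 := gain_step hG (k := 4) (c := 0) (r := 1) (m := D - 3) (by norm_num) hvP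
    (by omega) S' hS1' hS2' hS3' hA4P
  have hX1ne : (insert v (Pset p)).Nonempty := ⟨v, mem_insert_self _ _⟩
  refine ⟨?_, ?_⟩
  · have := gain_mono hG (k := 3) (c := 0 + 1) (by norm_num) hU hX1 hX1ne (subset_univ _)
      (Or.inr (by omega)) (by
        rw [hX1c, show D + 2 - 3 = D - 2 + 1 by omega]; exact hA3)
    rwa [Finset.card_univ] at this
  · by_cases hD3 : D + 3 ≤ Fintype.card V
    · -- second outside vertex
      obtain ⟨w0, hw0⟩ : ∃ w0, w0 ∉ insert v (Pset p) := by
        by_contra h
        push Not at h
        have : insert v (Pset p) = univ := Finset.eq_univ_of_forall h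
        rw [this, Finset.card_univ] at hX1c
        omega
      obtain ⟨b, _, w, _, hbw, hbX, hwX⟩ := cut hU (fun z => z ∈ insert v (Pset p)) (mem_univ v)
        (mem_univ w0) (mem_insert_self _ _) hw0
      have hwP : w ∉ Pset p := fun h => hwX (mem_insert_of_mem h)
      have hwv : w ≠ v := fun h => hwX (h ▸ mem_insert_self _ _)
      have hSS : ∃ S : Finset V, S ⊆ insert w (insert v (Pset p)) ∧
          (∀ u ∈ S, G.dist w u < 4) ∧ 4 + 1 ≤ S.card := by
        rcases mem_insert.1 hbX with hb | hb
        · rw [hb] at hbw
          obtain ⟨e1, e2, e3, _, _⟩ := hclose v i hi1 hiD hav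
          have ewv : G.dist w v = 1 := SimpleGraph.dist_eq_one_iff_adj.2 hbw.symm
          have tri : ∀ z, G.dist w z ≤ 1 + G.dist v z := by
            intro z
            have := hG.dist_triangle (u := w) (v := v) (w := z)
            omega
          refine ⟨insert w (insert v (insert (p.getVert i)
            (insert (p.getVert (i + 1)) {p.getVert (i - 1)}))), ?_, ?_, ?_⟩
          · intro u hu
            simp only [mem_insert, mem_singleton] at hu
            rcases hu with rfl | rfl | rfl | rfl | rfl
            · exact mem_insert_self _ _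
            · exact mem_insert_of_mem (mem_insert_self _ _)
            · exact mem_insert_of_mem (mem_insert_of_mem (hmem _ (by omega)))
            · exact mem_insert_of_mem (mem_insert_of_mem (hmem _ (by omega)))
            · exact mem_insert_of_mem (mem_insert_of_mem (hmem _ (by omega)))
          · intro u hu
            have ht := tri u
            simp only [mem_insert, mem_singleton] at hu
            rcases hu with rfl | rfl | rfl | rfl | rfl
            · simp
            · omega
            · omega
            · omega
            · omega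
          · rw [Finset.card_insert_of_notMem, Finset.card_insert_of_notMem,
              Finset.card_insert_of_notMem, Finset.card_insert_of_notMem, Finset.card_singleton]
            · simp only [mem_singleton]; exact hinj _ (by omega) _ (by omega) (by omega)
            · simp only [mem_insert, mem_singleton, not_or]
              exact ⟨hinj _ (by omega) _ (by omega) (by omega),
                hinj _ (by omega) _ (by omega) (by omega)⟩
            · simp only [mem_insert, mem_singleton, not_or]
              exact ⟨hvne v hvP _ (by omega), hvne v hvP _ (by omega), hvne v hvP _ (by omega)⟩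
            · simp only [mem_insert, mem_singleton, not_or]
              exact ⟨hwv, hvne w hwP _ (by omega), hvne w hwP _ (by omega),
                hvne w hwP _ (by omega)⟩
        · obtain ⟨j, hj1, hjD, hjb⟩ := inner_att hG hT p hp hmax hwP hb hbw
          rw [hjb] at hbw
          obtain ⟨S, h1, h2, h3⟩ := hfive w j hwP hj1 hjD hbw
          refine ⟨S, h1.trans ?_, h2, h3⟩
          exact insert_subset_insert w (subset_insert v (Pset p))
      obtain ⟨S2, h1, h2, h3⟩ := hSS
      have hA4' := gain_step hG (k := 4) (c := 0 + 1) (r := 1) (m := D - 3 + 1)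
        (by norm_num) hwX (by omega) S2 h1 h2 h3 hA4
      have hX2 : Conn G (insert w (insert v (Pset p))) := conn_insert hX1 hbX hbw
      have hX2c : (insert w (insert v (Pset p))).card = D + 3 := by
        rw [Finset.card_insert_of_notMem hwX, hX1c]
      refine ⟨0 + 1 + 1, by norm_num, fun _ => by norm_num, ?_⟩
      have := gain_mono hG (k := 4) (c := 0 + 1 + 1) (by norm_num) hU hX2
        ⟨w, mem_insert_self _ _⟩ (subset_univ _) (Or.inr (by omega)) (by
          rw [hX2c, show D + 3 - 4 = D - 3 + 1 + 1 by omega]; exact hA4')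
      rwa [Finset.card_univ] at this
    · refine ⟨0 + 1, by norm_num, fun h => absurd h hD3, ?_⟩
      have := gain_mono hG (k := 4) (c := 0 + 1) (by norm_num) hU hX1 hX1ne (subset_univ _)
        (Or.inr (by omega)) (by
          rw [hX1c, show D + 2 - 4 = D - 3 + 1 by omega]; exact hA4)
      rwa [Finset.card_univ] at this

end Pool.Agent.Q285.WE
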